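import Mathlib

/-!
# Clifford theory: the trace form on a coset of a normal subgroup
-/

set_option autoImplicit false
set_option linter.unusedSectionVars false
set_option linter.style.haveILetI false

namespace Pool.Agent.H40RT

open Module

section

variable {F : Type*} [Field F] {W : Type*} [AddCommGroup W] [Module F W] [FiniteDimensional F W]
  {Γ : Type*} [Group Γ]

/-- the algebra generated by the operators of a subgroup -/
def alg (r : Γ →* Module.End F W) (Δ : Subgroup Γ) : Subalgebra F (Module.End F W) :=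
  Algebra.adjoin F (Set.range fun x : Δ => r x)

/-- irreducibility -/
def IrrE (r : Γ →* Module.End F W) : Prop :=
  Nontrivial W ∧ ∀ U : Submodule F W, (∀ g, ∀ u ∈ U, r g u ∈ U) → U = ⊥ ∨ U = ⊤

theorem mem_alg (r : Γ →* Module.End F W) (Δ : Subgroup Γ) (x : Γ) (hx : x ∈ Δ) : r x ∈ alg r Δ :=
  Algebra.subset_adjoin ⟨⟨x, hx⟩, rfl⟩

theorem r_inv (r : Γ →* Module.End F W) (g : Γ) : r g * r g⁻¹ = 1 := by
  rw [← map_mul, mul_inv_cancel, map_one]

theorem r_inv' (r : Γ →* Module.End F W) (g : Γ) : r g⁻¹ * r g = 1 := by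
  rw [← map_mul, inv_mul_cancel, map_one]

theorem conj_alg (r : Γ →* Module.End F W) (Δ : Subgroup Γ) [Δ.Normal] (g : Γ) (a : Module.End F W)
    (ha : a ∈ alg r Δ) : r g * a * r g⁻¹ ∈ alg r Δ := by
  unfold alg at ha
  induction ha using Algebra.adjoin_induction with
  | mem a ha =>
    obtain ⟨x, rfl⟩ := ha
    have h1 : r g * r x * r g⁻¹ = r (g * x * g⁻¹) := by rw [map_mul, map_mul]
    change r g * r x * r g⁻¹ ∈ alg r Δ
    rw [h1]
    exact mem_alg r Δ _ ((inferInstance : Δ.Normal).conj_mem _ x.2 g)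
  | algebraMap c =>
    have h1 : r g * algebraMap F (Module.End F W) c * r g⁻¹ = algebraMap F (Module.End F W) c := by
      rw [← Algebra.commutes, mul_assoc, r_inv, mul_one]
    rw [h1]
    exact Subalgebra.algebraMap_mem _ c
  | add a b _ _ ha hb =>
    rw [mul_add, add_mul]
    exact Subalgebra.add_mem _ ha hb
  | mul a b _ _ ha hb =>
    have h1 : r g * (a * b) * r g⁻¹ = (r g * a * r g⁻¹) * (r g * b * r g⁻¹) := by
      calc r g * (a * b) * r g⁻¹ = r g * a * (r g⁻¹ * r g) * b * r g⁻¹ := by
            rw [r_inv', mul_one]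
            simp only [mul_assoc]
        _ = _ := by simp only [mul_assoc]
    rw [h1]
    exact Subalgebra.mul_mem _ ha hb

/-- translate of a submodule -/
def trs (r : Γ →* Module.End F W) (Δ : Subgroup Γ) [Δ.Normal] (g : Γ) (U : Submodule (alg r Δ) W) :
    Submodule (alg r Δ) W where
  carrier := {w | r g⁻¹ w ∈ U}
  add_mem' := by
    intro v w hv hw
    change r g⁻¹ (v + w) ∈ U
    rw [map_add]
    exact U.add_mem hv hw
  zero_mem' := by
    change r g⁻¹ 0 ∈ U
    rw [map_zero]
    exact U.zero_mem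
  smul_mem' := by
    intro a w hw
    change r g⁻¹ ((a : Module.End F W) w) ∈ U
    have h1 := conj_alg r Δ g⁻¹ a a.2
    have h2 := U.smul_mem ⟨_, h1⟩ hw
    have h3 : (⟨_, h1⟩ : alg r Δ) • (r g⁻¹ w) = r g⁻¹ ((a : Module.End F W) w) := by
      change (r g⁻¹ * (a : Module.End F W) * r g⁻¹⁻¹) (r g⁻¹ w) = _
      rw [inv_inv]
      change r g⁻¹ ((a : Module.End F W) ((r g * r g⁻¹) w)) = _
      rw [r_inv]
      rfl
    rwa [h3] at h2

theorem mem_trs (r : Γ →* Module.End F W) (Δ : Subgroup Γ) [Δ.Normal] (g : Γ) (U : Submodule (alg r Δ) W) (w : W) :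
    w ∈ trs r Δ g U ↔ r g⁻¹ w ∈ U := Iff.rfl

/-- the translation as an isomorphism of lattices -/
def trsIso (r : Γ →* Module.End F W) (Δ : Subgroup Γ) [Δ.Normal] (g : Γ) :
    Submodule (alg r Δ) W ≃o Submodule (alg r Δ) W where
  toFun := trs r Δ g
  invFun := trs r Δ g⁻¹
  left_inv U := by
    ext w
    rw [mem_trs, mem_trs, inv_inv]
    change (r g⁻¹ * r g) w ∈ U ↔ _
    rw [r_inv']
    rfl
  right_inv U := by
    ext w
    rw [mem_trs, mem_trs, inv_inv]
    change (r g * r g⁻¹) w ∈ U ↔ _
    rw [r_inv]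
    rfl
  map_rel_iff' := by
    intro U U'
    constructor
    · intro h w hw
      have h1 : r g w ∈ trs r Δ g U := by
        rw [mem_trs]
        change (r g⁻¹ * r g) w ∈ U
        rw [r_inv']
        exact hw
      have h2 := h h1
      change r g w ∈ trs r Δ g U' at h2
      rw [mem_trs] at h2
      change (r g⁻¹ * r g) w ∈ U' at h2
      rw [r_inv'] at h2
      exact h2
    · intro h w hw
      exact h hw

/-- **Clifford's theorem.** -/
theorem clifford (r : Γ →* Module.End F W) (hirr : IrrE r) (Δ : Subgroup Γ) [Δ.Normal] :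
    IsSemisimpleModule (alg r Δ) W := by
  obtain ⟨hnt, hirr⟩ := hirr
  obtain ⟨S, hS⟩ : ∃ S : Submodule (alg r Δ) W, S = sSup {m : Submodule (alg r Δ) W | IsSimpleModule (alg r Δ) m} :=
    ⟨_, rfl⟩
  have hfix : ∀ g, trs r Δ g S = S := by
    intro g
    have h1 : trsIso r Δ g S = S := by
      rw [hS, OrderIso.map_sSup]
      apply le_antisymm
      · refine iSup₂_le fun m hm => le_sSup ?_
        change IsSimpleModule (alg r Δ) m at hm
        change IsSimpleModule (alg r Δ) (trsIso r Δ g m)
        rw [isSimpleModule_iff_isAtom] at hm ⊢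
        exact (OrderIso.isAtom_iff _ _).2 hm
      · refine sSup_le fun m hm => ?_
        change IsSimpleModule (alg r Δ) m at hm
        refine le_trans (le_of_eq ((trsIso r Δ g).apply_symm_apply m).symm)
          (le_iSup₂ (f := fun a _ => (trsIso r Δ g) a) ((trsIso r Δ g).symm m) ?_)
        change IsSimpleModule (alg r Δ) ((trsIso r Δ g).symm m)
        rw [isSimpleModule_iff_isAtom] at hm ⊢
        exact (OrderIso.isAtom_iff _ _).2 hm
    exact h1
  haveI : IsArtinian (alg r Δ) W := isArtinian_of_tower F inferInstance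
  have hne : S ≠ ⊥ := by
    intro h0
    obtain ⟨m, hm, -⟩ := (isAtomic_iff (Submodule (alg r Δ) W)).mp inferInstance ⊤ |>.resolve_left top_ne_bot
    have h1 : m ≤ S := by
      rw [hS]
      apply le_sSup
      change IsSimpleModule (alg r Δ) m
      rw [isSimpleModule_iff_isAtom]
      exact hm
    rw [h0, le_bot_iff] at h1
    exact hm.1 h1
  have htop : S = ⊤ := by
    rcases hirr (S.restrictScalars F) (fun g u hu => by
      have h1 : r g u ∈ trs r Δ g S := by
        rw [mem_trs]
        change (r g⁻¹ * r g) u ∈ S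
        rw [r_inv']
        exact hu
      rw [hfix g] at h1
      exact h1) with h | h
    · exfalso
      apply hne
      rw [eq_bot_iff]
      intro u hu
      have : u ∈ S.restrictScalars F := hu
      rw [h] at this
      exact this
    · rw [eq_top_iff]
      intro u _
      have : u ∈ S.restrictScalars F := by rw [h]; trivial
      exact this
  apply IsSemisimpleModule.of_sSup_simples_eq_top
  rw [← hS]
  exact htop

/-- the algebra is semisimple -/
theorem alg_semisimple (r : Γ →* Module.End F W) (hirr : IrrE r) (Δ : Subgroup Γ) [Δ.Normal] :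
    IsSemisimpleRing (alg r Δ) := by
  haveI := clifford r hirr Δ
  obtain ⟨b⟩ : Nonempty (Basis (Fin (finrank F W)) F W) := ⟨Module.finBasis F W⟩
  let f : alg r Δ →ₗ[alg r Δ] (Fin (finrank F W) → W) :=
    { toFun := fun a i => (a : Module.End F W) (b i)
      map_add' := fun a a' => rfl
      map_smul' := fun c a => rfl }
  refine IsSemisimpleModule.of_injective f ?_
  intro a a' h
  apply Subtype.ext
  exact b.ext fun i => congrFun h i

/-- **A two-sided ideal stable under conjugation.** -/
theorem ideal_top (r : Γ →* Module.End F W) (hirr : IrrE r) (Δ : Subgroup Γ) [Δ.Normal]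
    (N : Submodule F (Module.End F W)) (hNA : ∀ a ∈ N, a ∈ alg r Δ)
    (hl : ∀ a ∈ N, ∀ b ∈ alg r Δ, b * a ∈ N) (hr : ∀ a ∈ N, ∀ b ∈ alg r Δ, a * b ∈ N)
    (hc : ∀ g, ∀ a ∈ N, r g * a * r g⁻¹ ∈ N) (h0 : N ≠ ⊥) : (1 : Module.End F W) ∈ N := by
  haveI := alg_semisimple r hirr Δ
  -- the left ideal
  let I : Submodule (alg r Δ) (alg r Δ) :=
    { carrier := {a | (a : Module.End F W) ∈ N}
      add_mem' := fun {a b} ha hb => N.add_mem ha hb
      zero_mem' := N.zero_mem
      smul_mem' := fun c a ha => hl _ ha _ c.2 }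
  have hI : ∀ a : alg r Δ, a ∈ I ↔ (a : Module.End F W) ∈ N := fun a => Iff.rfl
  obtain ⟨I', hI'⟩ := exists_isCompl I
  have hII' : ∀ a ∈ I, ∀ a' ∈ I', a * a' = 0 := by
    intro a ha a' ha'
    have h1 : a * a' ∈ I := hr _ ha _ a'.2
    have h2 : a * a' ∈ I' := I'.smul_mem a ha'
    have h3 : a * a' ∈ I ⊓ I' := ⟨h1, h2⟩
    rw [hI'.inf_eq_bot] at h3
    exact h3
  have hI'I : ∀ a' ∈ I', ∀ a ∈ I, a' * a = 0 := by
    intro a' ha' a ha
    obtain ⟨e, he, hIe⟩ := IsSemisimpleRing.ideal_eq_span_idempotent (Ideal.span {a' * a})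
    have h1 : e ∈ Ideal.span {a' * a} := by
      rw [hIe]
      exact Ideal.subset_span rfl
    obtain ⟨c, hc⟩ := Ideal.mem_span_singleton'.mp h1
    have h2 : e = 0 := by
      have h3 : a * c * a' = 0 := hII' _ (hr _ ha _ c.2) _ ha'
      calc e = e * e := he.eq.symm
        _ = c * (a' * a) * (c * (a' * a)) := by rw [hc]
        _ = c * (a' * (a * c * a') * a) := by simp only [mul_assoc]
        _ = 0 := by rw [h3, mul_zero, zero_mul, mul_zero]
    rw [h2] at hIe
    have h3 : a' * a ∈ Ideal.span {a' * a} := Ideal.subset_span rfl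
    rw [hIe] at h3
    simpa using h3
  -- the subspace `N W`
  obtain ⟨U, hU⟩ : ∃ U : Submodule F W, U = Submodule.span F {w | ∃ a ∈ N, ∃ v, w = a v} := ⟨_, rfl⟩
  have hUtop : U = ⊤ := by
    rcases hirr.2 U (by
      intro g u hu
      rw [hU] at hu ⊢
      induction hu using Submodule.span_induction with
      | mem w hw =>
        obtain ⟨a, ha, v, rfl⟩ := hw
        apply Submodule.subset_span
        refine ⟨r g * a * r g⁻¹, hc g a ha, r g v, ?_⟩
        change _ = r g (a ((r g⁻¹ * r g) v))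
        rw [r_inv']
        rfl
      | zero => rw [map_zero]; exact Submodule.zero_mem _
      | add x y _ _ hx hy => rw [map_add]; exact Submodule.add_mem _ hx hy
      | smul c x _ hx => rw [map_smul]; exact Submodule.smul_mem _ _ hx) with h | h
    · exfalso
      apply h0
      rw [eq_bot_iff]
      intro a ha
      rw [Submodule.mem_bot]
      ext v
      have h1 : a v ∈ U := by
        rw [hU]
        exact Submodule.subset_span ⟨a, ha, v, rfl⟩
      rw [h] at h1
      exact h1
    · exact h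
  have hI'0 : ∀ a' ∈ I', a' = 0 := by
    intro a' ha'
    apply Subtype.ext
    ext w
    have h1 : w ∈ U := by rw [hUtop]; trivial
    rw [hU] at h1
    change (a' : Module.End F W) w = 0
    induction h1 using Submodule.span_induction with
    | mem w hw =>
      obtain ⟨a, ha, v, rfl⟩ := hw
      have h2 := hI'I a' ha' ⟨a, hNA a ha⟩ ha
      have h3 := congrArg (fun z : alg r Δ => (z : Module.End F W) v) h2
      exact h3
    | zero => rw [map_zero]
    | add x y _ _ hx hy => rw [map_add, hx, hy, add_zero]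
    | smul c x _ hx => rw [map_smul, hx, smul_zero]
  have h1 : (1 : alg r Δ) ∈ I ⊔ I' := by
    rw [hI'.sup_eq_top]
    trivial
  obtain ⟨a, ha, a', ha', haa⟩ := Submodule.mem_sup.mp h1
  rw [hI'0 a' ha', add_zero] at haa
  rw [haa] at ha
  exact ha

/-- the conjugates of a coset -/
def cc (Δ : Subgroup Γ) (σ : Γ) : Set Γ := {c | ∃ τ, ∃ δ ∈ Δ, c = τ * (σ * δ) * τ⁻¹}

theorem cc_conj (Δ : Subgroup Γ) (σ g c : Γ) (hc : c ∈ cc Δ σ) : g * c * g⁻¹ ∈ cc Δ σ := by
  obtain ⟨τ, δ, hδ, rfl⟩ := hc
  exact ⟨g * τ, δ, hδ, by group⟩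

theorem cc_right (Δ : Subgroup Γ) [Δ.Normal] (σ x c : Γ) (hx : x ∈ Δ) (hc : c ∈ cc Δ σ) : c * x ∈ cc Δ σ := by
  obtain ⟨τ, δ, hδ, rfl⟩ := hc
  refine ⟨τ, δ * (τ⁻¹ * x * τ⁻¹⁻¹), Δ.mul_mem hδ ((inferInstance : Δ.Normal).conj_mem _ hx _), by group⟩

theorem cc_left (Δ : Subgroup Γ) [Δ.Normal] (σ x c : Γ) (hx : x ∈ Δ) (hc : c ∈ cc Δ σ) : x * c ∈ cc Δ σ := by
  have h1 : x * c = c * (c⁻¹ * x * c⁻¹⁻¹) := by group
  rw [h1]
  exact cc_right Δ σ _ c ((inferInstance : Δ.Normal).conj_mem _ hx _) hc

theorem span_mul (r : Γ →* Module.End F W) (Δ : Subgroup Γ) (x y : Module.End F W)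
    (hx : x ∈ Submodule.span F (Set.range fun x : Δ => r x)) (hy : y ∈ Submodule.span F (Set.range fun x : Δ => r x)) :
    x * y ∈ Submodule.span F (Set.range fun x : Δ => r x) := by
  induction hx using Submodule.span_induction with
  | mem a ha =>
    obtain ⟨g, rfl⟩ := ha
    induction hy using Submodule.span_induction with
    | mem b hb =>
      obtain ⟨h, rfl⟩ := hb
      exact Submodule.subset_span ⟨g * h, by simp only [Subgroup.coe_mul, map_mul]⟩
    | zero => rw [mul_zero]; exact Submodule.zero_mem _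
    | add a b _ _ ha hb => rw [mul_add]; exact Submodule.add_mem _ ha hb
    | smul c a _ ha => rw [mul_smul_comm]; exact Submodule.smul_mem _ _ ha
  | zero => rw [zero_mul]; exact Submodule.zero_mem _
  | add a b _ _ ha hb => rw [add_mul]; exact Submodule.add_mem _ ha hb
  | smul c a _ ha => rw [smul_mul_assoc]; exact Submodule.smul_mem _ _ ha

theorem alg_span (r : Γ →* Module.End F W) (Δ : Subgroup Γ) (b : Module.End F W) (hb : b ∈ alg r Δ) :
    b ∈ Submodule.span F (Set.range fun x : Δ => r x) := by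
  unfold alg at hb
  induction hb using Algebra.adjoin_induction with
  | mem x hx => exact Submodule.subset_span hx
  | algebraMap c =>
    have h1 : algebraMap F (Module.End F W) c = c • r (1 : Δ) := by
      rw [Subgroup.coe_one, map_one, Algebra.algebraMap_eq_smul_one]
    rw [h1]
    exact Submodule.smul_mem _ _ (Submodule.subset_span ⟨1, rfl⟩)
  | add x y _ _ hx hy => exact Submodule.add_mem _ hx hy
  | mul x y _ _ hx hy => exact span_mul r Δ x y hx hy

theorem cc_trace (r : Γ →* Module.End F W) (Δ : Subgroup Γ) [Δ.Normal] (σ : Γ) (a b : Module.End F W)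
    (ha : ∀ c ∈ cc Δ σ, LinearMap.trace F W (a * r c) = 0) (hb : b ∈ alg r Δ) :
    ∀ c ∈ cc Δ σ, LinearMap.trace F W (b * a * r c) = 0 ∧ LinearMap.trace F W (a * b * r c) = 0 := by
  have hspan := alg_span r Δ b hb
  clear hb
  intro c hc
  induction hspan using Submodule.span_induction with
  | mem b hb =>
    obtain ⟨x, rfl⟩ := hb
    constructor
    · have h1 := ha _ (cc_right Δ σ x c x.2 hc)
      rw [r.map_mul, ← mul_assoc, LinearMap.trace_mul_comm, ← mul_assoc] at h1
      exact h1
    · have h1 := ha _ (cc_left Δ σ x c x.2 hc)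
      rw [r.map_mul, ← mul_assoc] at h1
      exact h1
  | zero => simp
  | add x y _ _ hx hy =>
    rw [add_mul, mul_add, add_mul, add_mul, map_add, map_add, hx.1, hx.2, hy.1, hy.2, add_zero]
    exact ⟨rfl, rfl⟩
  | smul k x _ hx =>
    rw [smul_mul_assoc, smul_mul_assoc, mul_smul_comm, smul_mul_assoc, map_smul, map_smul, hx.1, hx.2, smul_zero]
    exact ⟨rfl, rfl⟩

/-- **The trace form on a coset.**  If the trace of an irreducible representation is not identically zero on the coset
`σ Δ`, then every linear form on the operators of `Δ` is given by the trace with a combination of operators of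
conjugates of elements of the coset. -/
theorem exists_trace_form (r : Γ →* Module.End F W) (hirr : IrrE r) (Δ : Subgroup Γ) [Δ.Normal] (σ : Γ)
    (h0 : ∃ x ∈ Δ, LinearMap.trace F W (r (σ * x)) ≠ 0) (ℓ : Module.End F W →ₗ[F] F) :
    ∃ L ∈ Submodule.span F (r '' cc Δ σ), ∀ x ∈ Δ, ℓ (r x) = LinearMap.trace F W (r x * L) := by
  classical
  obtain ⟨X, hX⟩ : ∃ X : Submodule F (Module.End F W), X = Submodule.span F (r '' cc Δ σ) := ⟨_, rfl⟩
  obtain ⟨A, hA⟩ : ∃ A : Submodule F (Module.End F W), A = Subalgebra.toSubmodule (alg r Δ) := ⟨_, rfl⟩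
  have hAm : ∀ a, a ∈ A ↔ a ∈ alg r Δ := fun a => by rw [hA]; exact Subalgebra.mem_toSubmodule _
  let φ : X →ₗ[F] Module.Dual F A :=
    { toFun := fun L =>
        { toFun := fun a => LinearMap.trace F W ((a : Module.End F W) * (L : Module.End F W))
          map_add' := fun a b => by
            rw [Submodule.coe_add, add_mul, map_add]
          map_smul' := fun c a => by
            rw [Submodule.coe_smul, smul_mul_assoc, map_smul, RingHom.id_apply] }
      map_add' := fun L L' => by
        ext a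
        change LinearMap.trace F W ((a : Module.End F W) * ((L : Module.End F W) + (L' : Module.End F W))) = _
        rw [mul_add, map_add]
        rfl
      map_smul' := fun c L => by
        ext a
        change LinearMap.trace F W ((a : Module.End F W) * (c • (L : Module.End F W))) = _
        rw [mul_smul_comm, map_smul]
        rfl }
  have hφ : ∀ (L : X) (a : A), φ L a = LinearMap.trace F W ((a : Module.End F W) * (L : Module.End F W)) :=
    fun _ _ => rfl
  -- the elements orthogonal to `X`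
  let N : Submodule F (Module.End F W) :=
    { carrier := {a | a ∈ A ∧ ∀ c ∈ cc Δ σ, LinearMap.trace F W (a * r c) = 0}
      add_mem' := by
        rintro a b ⟨ha, ha'⟩ ⟨hb, hb'⟩
        refine ⟨A.add_mem ha hb, fun c hc => ?_⟩
        rw [add_mul, map_add, ha' c hc, hb' c hc, add_zero]
      zero_mem' := ⟨A.zero_mem, fun c _ => by rw [zero_mul, map_zero]⟩
      smul_mem' := by
        rintro k a ⟨ha, ha'⟩
        refine ⟨A.smul_mem k ha, fun c hc => ?_⟩
        rw [smul_mul_assoc, map_smul, ha' c hc, smul_zero] }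
  have hN : N = ⊥ := by
    by_contra hne
    have h1 : (1 : Module.End F W) ∈ N := by
      refine ideal_top r hirr Δ N (fun a ha => (hAm a).1 ha.1) ?_ ?_ ?_ hne
      · rintro a ⟨ha, ha'⟩ b hb
        exact ⟨(hAm _).2 (Subalgebra.mul_mem _ hb ((hAm _).1 ha)), fun c hc =>
          (cc_trace r Δ σ a b ha' hb c hc).1⟩
      · rintro a ⟨ha, ha'⟩ b hb
        exact ⟨(hAm _).2 (Subalgebra.mul_mem _ ((hAm _).1 ha) hb), fun c hc =>
          (cc_trace r Δ σ a b ha' hb c hc).2⟩
      · rintro g a ⟨ha, ha'⟩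
        refine ⟨(hAm _).2 (conj_alg r Δ g a ((hAm _).1 ha)), fun c hc => ?_⟩
        have h1 := ha' _ (cc_conj Δ σ g⁻¹ c hc)
        have h2 : r g * a * r g⁻¹ * r c = r g * (a * (r g⁻¹ * r c)) := by simp only [mul_assoc]
        have h3 : a * (r g⁻¹ * r c) * r g = a * r (g⁻¹ * c * g⁻¹⁻¹) := by
          have h4 : r (g⁻¹ * c * g⁻¹⁻¹) = r g⁻¹ * r c * r g := by
            rw [inv_inv, map_mul r (g⁻¹ * c) g, map_mul r g⁻¹ c]
          rw [h4]
          simp only [mul_assoc]
        rw [h2, LinearMap.trace_mul_comm, h3]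
        exact h1
    obtain ⟨x, hx, hx0⟩ := h0
    apply hx0
    have h2 := h1.2 (σ * x) ⟨1, x, hx, by group⟩
    rwa [one_mul] at h2
  -- the map is surjective
  have hsurj : LinearMap.range φ = ⊤ := by
    rw [← Subspace.dualCoannihilator_dualAnnihilator_eq (W := LinearMap.range φ)]
    have h1 : (LinearMap.range φ).dualCoannihilator = ⊥ := by
      rw [eq_bot_iff]
      intro a ha
      rw [Submodule.mem_bot]
      apply Subtype.ext
      change (a : Module.End F W) = 0
      have h2 : (a : Module.End F W) ∈ N := by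
        refine ⟨a.2, fun c hc => ?_⟩
        have h3 := (Submodule.mem_dualCoannihilator a).1 ha (φ ⟨r c, by rw [hX]; exact Submodule.subset_span ⟨c, hc, rfl⟩⟩)
          ⟨_, rfl⟩
        exact h3
      rw [hN] at h2
      exact h2
    rw [h1, Submodule.dualAnnihilator_bot]
  obtain ⟨L, hL⟩ : (ℓ.comp A.subtype) ∈ LinearMap.range φ := by rw [hsurj]; trivial
  refine ⟨L, hX ▸ L.2, fun x hx => ?_⟩
  have h1 := congrArg (fun f : Module.Dual F A => f ⟨r x, (hAm _).2 (mem_alg r Δ x hx)⟩) hL
  exact h1.symm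

end

end Pool.Agent.H40RT
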