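import Mathlib
import Pool.Agent.H40RT.Semi
import Pool.Agent.H40LT.Null2

/-!
# Rational functions of the coefficients
-/

set_option autoImplicit false
set_option linter.unusedSectionVars false
set_option linter.style.haveILetI false

namespace Pool.Agent.H40RT

open Module Matrix Pool.Agent.H40GO Pool.Agent.H40LT

section

variable {F : Type*} [Field F] {Γ : Type*} [Group Γ] {n m : Type*} [Fintype n] [DecidableEq n] [Fintype m]
  [DecidableEq m]

/-- quotients of functions in the algebra -/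
def Fr (A : Subalgebra F (Γ → F)) (f : Γ → F) : Prop := ∃ b ∈ A, b ≠ 0 ∧ b * f ∈ A

/-- **Denominators cancel.** -/
theorem mem_of_fr [IsAlgClosed F] {A : Subalgebra F (Γ → F)} (hA : Hopf A)
    (hdom : ∀ a ∈ A, ∀ b ∈ A, a * b = 0 → a = 0 ∨ b = 0) (ρ : Γ →* Matrix n n F)
    (h : ∀ i j, Fr A (fun x => ρ x i j)) (i j : n) : (fun x => ρ x i j) ∈ A := by
  classical
  choose y hyA hy0 hy using h
  obtain ⟨a, ha⟩ : ∃ a : Γ → F, a = ∏ p : n × n, y p.1 p.2 := ⟨_, rfl⟩
  have haA : a ∈ A := by
    rw [ha]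
    exact Subalgebra.prod_mem _ fun p _ => hyA p.1 p.2
  have ha0 : a ≠ 0 := by
    rw [ha]
    have key : ∀ S : Finset (n × n), (∏ p ∈ S, y p.1 p.2) ≠ 0 := by
      intro S
      induction S using Finset.induction_on with
      | empty =>
        rw [Finset.prod_empty]
        intro h
        exact one_ne_zero (congrFun h 1)
      | insert p S hp ih =>
        rw [Finset.prod_insert hp]
        intro h
        rcases hdom _ (hyA p.1 p.2) _ (Subalgebra.prod_mem _ fun q _ => hyA q.1 q.2) h with h1 | h1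
        · exact hy0 _ _ h1
        · exact ih h1
    exact key _
  have hint : ∀ i j, a * (fun x => ρ x i j) ∈ A := by
    intro i j
    rw [ha, ← Finset.prod_erase_mul _ _ (Finset.mem_univ (i, j)), mul_assoc]
    exact Subalgebra.mul_mem _ (Subalgebra.prod_mem _ fun q _ => hyA q.1 q.2) (hy i j)
  let J : Ideal A :=
    { carrier := {b | ∀ i j, (b : Γ → F) * (fun x => ρ x i j) ∈ A}
      add_mem' := by
        intro b c hb hc i j
        have h2 : ((b + c : A) : Γ → F) * (fun x => ρ x i j) =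
            (b : Γ → F) * (fun x => ρ x i j) + (c : Γ → F) * (fun x => ρ x i j) := by
          rw [← add_mul]
          rfl
        rw [h2]
        exact A.add_mem (hb i j) (hc i j)
      zero_mem' := by
        intro i j
        have h2 : ((0 : A) : Γ → F) * (fun x => ρ x i j) = 0 := zero_mul _
        rw [h2]
        exact A.zero_mem
      smul_mem' := by
        intro c b hb i j
        have h2 : ((c • b : A) : Γ → F) * (fun x => ρ x i j) =
            (c : Γ → F) * ((b : Γ → F) * (fun x => ρ x i j)) := by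
          rw [← mul_assoc]
          rfl
        rw [h2]
        exact A.mul_mem c.2 (hb i j) }
  have hJ : J = ⊤ := by
    refine hA.ideal_eq_top J ?_ ⟨⟨a, haA⟩, hint, ha0⟩
    intro b hb g hg l j
    have h2 : ∀ i, lt g ((b : Γ → F) * fun x => ρ x i j) ∈ A := fun i => (hA.comul _ (hb i j)).lt_mem g
    have h3 : lt g (b : Γ → F) * (fun x => ρ x l j) =
        ∑ i, ρ g⁻¹ l i • lt g ((b : Γ → F) * fun x => ρ x i j) := by
      funext x
      rw [Finset.sum_apply]
      change (b : Γ → F) (g * x) * ρ x l j = ∑ i, ρ g⁻¹ l i * ((b : Γ → F) (g * x) * ρ (g * x) i j)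
      have h4 : ρ x l j = ∑ i, ρ g⁻¹ l i * ρ (g * x) i j := by
        rw [← Matrix.mul_apply, ← map_mul, inv_mul_cancel_left]
      rw [h4, Finset.mul_sum]
      exact Finset.sum_congr rfl fun i _ => by ring
    change lt g (b : Γ → F) * (fun x => ρ x l j) ∈ A
    rw [h3]
    exact Subalgebra.sum_mem _ fun i _ => Subalgebra.smul_mem _ (h2 i) _
  have h1J : (1 : A) ∈ J := by rw [hJ]; trivial
  have h2 := h1J i j
  have h3 : ((1 : A) : Γ → F) * (fun x => ρ x i j) = fun x => ρ x i j := one_mul _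
  rw [h3] at h2
  exact h2

/-- the representation by operators -/
def toE (ρ : Γ →* Matrix n n F) : Γ →* Module.End F (n → F) :=
  ((Matrix.toLinAlgEquiv' : Matrix n n F ≃ₐ[F] Module.End F (n → F)) : Matrix n n F →* Module.End F (n → F)).comp ρ

theorem toE_apply (ρ : Γ →* Matrix n n F) (x : Γ) : toE ρ x = Matrix.toLin' (ρ x) := rfl

theorem toE_irr (ρ : Γ →* Matrix n n F) (h : Irr ρ) : IrrE (toE ρ) := by
  obtain ⟨⟨i⟩, h⟩ := h
  haveI : Nonempty n := ⟨i⟩
  refine ⟨inferInstance, fun U hU => h U fun g u hu => ?_⟩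
  have h1 := hU g u hu
  rwa [toE_apply, Matrix.toLin'_apply] at h1

theorem toE_trace (ρ : Γ →* Matrix n n F) (x : Γ) : LinearMap.trace F (n → F) (toE ρ x) = (ρ x).trace := by
  rw [toE_apply, Matrix.trace_toLin'_eq]

/-- **The core.**  The trace of `ρ` on the coset `σ Δ` is a quotient of class functions in the algebra of `V`, not
identically zero. -/
theorem core [IsAlgClosed F] (V : Γ →* Matrix m m F) (ρ : Γ →* Matrix n n F) (hirr : Irr ρ) (Δ : Subgroup Γ)
    [Δ.Normal] (hconn : ConnOn (coefAlg V 1) Δ) (σ : Γ) (a b : Γ → F) (ha : a ∈ coefAlg V 1) (hb : b ∈ coefAlg V 1)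
    (hac : ∀ τ x, a (τ * x * τ⁻¹) = a x) (hbc : ∀ τ x, b (τ * x * τ⁻¹) = b x)
    (h : ∀ x ∈ Δ, b (σ * x) * (ρ (σ * x)).trace = a (σ * x)) (hb0 : ∃ x ∈ Δ, b (σ * x) ≠ 0)
    (ha0 : ∃ x ∈ Δ, a (σ * x) ≠ 0) (i j : n) :
    (fun x : Δ => ρ x i j) ∈ coefAlg (V.comp Δ.subtype) 1 := by
  classical
  obtain ⟨A, hA⟩ : ∃ A, A = coefAlg (V.comp Δ.subtype) 1 := ⟨_, rfl⟩
  have hopf : Hopf A := by rw [hA]; exact coefAlg_hopf (V.comp Δ.subtype) 1
  have hdomI := res_domain V Δ hconn
  have hdom : ∀ a ∈ A, ∀ b ∈ A, a * b = 0 → a = 0 ∨ b = 0 := by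
    rw [hA]
    intro a ha b hb hab
    have h1 : (⟨a, ha⟩ : coefAlg (V.comp Δ.subtype) 1) * ⟨b, hb⟩ = 0 := Subtype.ext hab
    rcases mul_eq_zero.mp h1 with h2 | h2
    · exact Or.inl (congrArg Subtype.val h2)
    · exact Or.inr (congrArg Subtype.val h2)
  -- the relation on the conjugates of the coset
  have hrel : ∀ c ∈ cc Δ σ, b c * (ρ c).trace = a c := by
    rintro c ⟨τ, δ, hδ, rfl⟩
    rw [hac, hbc, ← h δ hδ, map_mul, map_mul, Matrix.trace_mul_comm, ← mul_assoc, ← map_mul, inv_mul_cancel, map_one,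
      one_mul]
  -- quotients
  have hFr : ∀ c ∈ cc Δ σ, Fr A (fun x : Δ => (ρ (x * c)).trace) := by
    intro c hc
    refine ⟨fun x : Δ => b (x * c), ?_, ?_, ?_⟩
    · rw [hA]
      exact res_mem V Δ (rt c b) (((coefAlg_hopf V 1).comul b hb).rt_mem c)
    · intro h0
      obtain ⟨τ, δ, hδ, rfl⟩ := hc
      obtain ⟨x, hx, hx0⟩ := hb0
      apply hx0
      have h1 : τ * (σ * (x * δ⁻¹) * σ⁻¹) * τ⁻¹ ∈ Δ :=
        (inferInstance : Δ.Normal).conj_mem _ ((inferInstance : Δ.Normal).conj_mem _ (Δ.mul_mem hx (Δ.inv_mem hδ)) σ) τ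
      have h2 := congrFun h0 ⟨_, h1⟩
      change b (τ * (σ * (x * δ⁻¹) * σ⁻¹) * τ⁻¹ * (τ * (σ * δ) * τ⁻¹)) = 0 at h2
      have h3 : τ * (σ * (x * δ⁻¹) * σ⁻¹) * τ⁻¹ * (τ * (σ * δ) * τ⁻¹) = τ * (σ * x) * τ⁻¹ := by group
      rw [h3, hbc] at h2
      exact h2
    · have h1 : (fun x : Δ => b (x * c)) * (fun x : Δ => (ρ (x * c)).trace) = fun x : Δ => a (x * c) := by
        funext x
        exact hrel _ (cc_left Δ σ x c x.2 hc)
      rw [h1, hA]
      exact res_mem V Δ (rt c a) (((coefAlg_hopf V 1).comul a ha).rt_mem c)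
  have hFadd : ∀ f g : Δ → F, Fr A f → Fr A g → Fr A (f + g) := by
    rintro f g ⟨b, hb, hb0, hf⟩ ⟨b', hb', hb0', hg⟩
    refine ⟨b * b', A.mul_mem hb hb', fun h0 => ?_, ?_⟩
    · rcases hdom _ hb _ hb' h0 with h1 | h1
      · exact hb0 h1
      · exact hb0' h1
    · have h1 : b * b' * (f + g) = b' * (b * f) + b * (b' * g) := by ring
      rw [h1]
      exact A.add_mem (A.mul_mem hb' hf) (A.mul_mem hb hg)
  have hFsmul : ∀ (k : F) (f : Δ → F), Fr A f → Fr A (k • f) := by
    rintro k f ⟨b, hb, hb0, hf⟩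
    refine ⟨b, hb, hb0, ?_⟩
    rw [mul_smul_comm]
    exact A.smul_mem hf k
  have hFzero : Fr A 0 := by
    refine ⟨1, A.one_mem, fun h0 => one_ne_zero (congrFun h0 1), ?_⟩
    rw [mul_zero]
    exact A.zero_mem
  have key : ∀ i j, Fr A (fun x : Δ => ρ x i j) := by
    intro i j
    let ℓ : Module.End F (n → F) →ₗ[F] F :=
      { toFun := fun f => f (Pi.single j 1) i
        map_add' := fun f g => rfl
        map_smul' := fun c f => rfl }
    obtain ⟨L, hL, hLx⟩ := exists_trace_form (toE ρ) (toE_irr ρ hirr) Δ σ (by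
      obtain ⟨x, hx, hx0⟩ := ha0
      refine ⟨x, hx, ?_⟩
      rw [toE_trace]
      intro h0
      apply hx0
      rw [← h x hx, h0, mul_zero]) ℓ
    have h1 : Fr A (fun x : Δ => LinearMap.trace F (n → F) (toE ρ x * L)) := by
      clear hLx
      induction hL using Submodule.span_induction with
      | mem L hL =>
        obtain ⟨c, hc, rfl⟩ := hL
        have h2 : (fun x : Δ => LinearMap.trace F (n → F) (toE ρ x * toE ρ c)) =
            fun x : Δ => (ρ (x * c)).trace := by
          funext x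
          rw [← (toE ρ).map_mul, toE_trace]
        rw [h2]
        exact hFr c hc
      | zero =>
        have h2 : (fun x : Δ => LinearMap.trace F (n → F) (toE ρ x * 0)) = 0 := by
          funext x
          rw [mul_zero, map_zero]
          rfl
        rw [h2]
        exact hFzero
      | add L L' _ _ hL hL' =>
        have h2 : (fun x : Δ => LinearMap.trace F (n → F) (toE ρ x * (L + L'))) =
            (fun x : Δ => LinearMap.trace F (n → F) (toE ρ x * L)) +
              fun x : Δ => LinearMap.trace F (n → F) (toE ρ x * L') := by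
          funext x
          rw [mul_add, map_add]
          rfl
        rw [h2]
        exact hFadd _ _ hL hL'
      | smul k L _ hL =>
        have h2 : (fun x : Δ => LinearMap.trace F (n → F) (toE ρ x * (k • L))) =
            k • fun x : Δ => LinearMap.trace F (n → F) (toE ρ x * L) := by
          funext x
          rw [mul_smul_comm, map_smul]
          rfl
        rw [h2]
        exact hFsmul _ _ hL
    have h2 : (fun x : Δ => ρ x i j) = fun x : Δ => LinearMap.trace F (n → F) (toE ρ x * L) := by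
      funext x
      rw [← hLx x x.2]
      change _ = Matrix.toLin' (ρ x) (Pi.single j 1) i
      rw [Matrix.toLin'_apply, Matrix.mulVec_single_one]
      rfl
    rw [h2]
    exact h1
  rw [← hA]
  exact mem_of_fr hopf hdom (ρ.comp Δ.subtype) key i j

end

end Pool.Agent.H40RT
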