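import Mathlib
import Pool.Agent.H40RT.Core
import Pool.Agent.H40LT.PosK

/-!
# Frobenius traces which are rational functions, on a set of primes of positive upper density
-/

set_option autoImplicit false
set_option linter.unusedSectionVars false
set_option linter.style.haveILetI false

namespace Pool.Agent.H40RT

open NumberField IsDedekindDomain Filter Module Matrix Pool.Agent.H40GO Pool.Agent.H40LT Topology MeasureTheory
  Pool.Agent.W401.Cheb

section

variable {F : Type*} [Field F] [TopologicalSpace F] [IsTopologicalRing F] [T2Space F] [IsAlgClosed F] [CharZero F]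
  {Γ : Type*} [Group Γ] [TopologicalSpace Γ] [IsTopologicalGroup Γ] {n : ℕ} {m : Type*} [Fintype m] [DecidableEq m]

theorem coefAlg_le_dsum (V : Γ →* Matrix m m F) (ρ : Γ →* Matrix (Fin n) (Fin n) F) :
    coefAlg V 1 ≤ coefAlg (dsum V ρ) 1 := coefAlg_le_RR V ρ

/-- **The zero set of a class function which is not zero on the coset of the point.** -/
theorem null_class [CompactSpace Γ] [MeasurableSpace Γ] [BorelSpace Γ] (μ : Measure Γ) [IsFiniteMeasure μ]
    [μ.IsMulLeftInvariant] [μ.InnerRegularCompactLTTop] {k : Type*} [Fintype k] [DecidableEq k]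
    (U : Γ →* Matrix k k F) (hU : Continuous U) (Δ : Subgroup Γ) (hΔn : Δ.Normal) (hΔo : IsOpen (Δ : Set Γ))
    (hΔ : ConnOn (coefAlg U 1) Δ) (f : Γ → F) (hf : f ∈ coefAlg U 1) (hfc : ∀ τ x, f (τ * x * τ⁻¹) = f x) :
    ∃ Z : Set Γ, IsClosed Z ∧ μ Z = 0 ∧ (∀ x ∈ Z, ∀ τ, τ * x * τ⁻¹ ∈ Z) ∧
      ∀ x, f x = 0 → x ∉ Z → ∀ y ∈ Δ, f (x * y) = 0 := by
  classical
  have hcont := cont_coefAlg U hU
  have hopf := coefAlg_hopf U 1
  haveI : Algebra.FiniteType F (coefAlg U 1) := (coefAlg U 1).fg_iff_finiteType.mp hopf.fg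
  haveI : IsNoetherianRing (coefAlg U 1) := Algebra.FiniteType.isNoetherianRing F (coefAlg U 1)
  haveI : Finite (Γ ⧸ Δ) := Subgroup.quotient_finite_of_isOpen Δ hΔo
  haveI : Fintype (Γ ⧸ Δ) := Fintype.ofFinite _
  -- the bad part of a coset
  let P : Γ → Set Γ := fun g => {x | f x = 0} ∩ {x | g⁻¹ * x ∈ Δ}
  have hcoset : ∀ g : Γ, IsOpen {x : Γ | g⁻¹ * x ∈ Δ} := fun g => hΔo.preimage (continuous_const_mul g⁻¹)
  have hcosetc : ∀ g : Γ, IsClosed {x : Γ | g⁻¹ * x ∈ Δ} := fun g =>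
    (Δ.isClosed_of_isOpen hΔo).preimage (continuous_const_mul g⁻¹)
  have hPc : ∀ g, IsClosed (P g) := fun g => (isClosed_singleton.preimage (hcont f hf)).inter (hcosetc g)
  have hP0 : ∀ g, (∃ y ∈ Δ, f (g * y) ≠ 0) → μ (P g) = 0 := by
    rintro g ⟨y, hy, hy0⟩
    by_contra h0
    apply hy0
    have h1 := null_zero_on μ (coefAlg U 1) hopf.comul hcont Δ hΔo hΔ (lt g f) ((hopf.comul f hf).lt_mem g) (by
      have h2 : ({x | lt g f x = 0} ∩ Δ : Set Γ) = (fun x => g * x) ⁻¹' P g := by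
        ext x
        constructor
        · rintro ⟨h3, h4⟩
          refine ⟨h3, ?_⟩
          change g⁻¹ * (g * x) ∈ Δ
          rw [inv_mul_cancel_left]
          exact h4
        · rintro ⟨h3, h4⟩
          refine ⟨h3, ?_⟩
          change g⁻¹ * (g * x) ∈ Δ at h4
          rwa [inv_mul_cancel_left] at h4
      rw [h2, measure_preimage_mul]
      exact h0)
    exact h1 y hy
  obtain ⟨T, hT⟩ : ∃ T : Set (Γ ⧸ Δ), T = {q | ∃ y ∈ Δ, f (q.out * y) ≠ 0} := ⟨_, rfl⟩
  refine ⟨⋃ q ∈ T, P q.out, ?_, ?_, ?_, ?_⟩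
  · exact (Set.toFinite T).isClosed_biUnion fun q _ => hPc _
  · rw [measure_biUnion_null_iff (Set.toFinite T).countable]
    intro q hq
    rw [hT] at hq
    exact hP0 _ hq
  · intro x hx τ
    rw [Set.mem_iUnion₂] at hx ⊢
    obtain ⟨q, hq, hfx, hqx⟩ := hx
    refine ⟨QuotientGroup.mk (τ * x * τ⁻¹), ?_, ?_, ?_⟩
    · rw [hT] at hq ⊢
      obtain ⟨y, hy, hy0⟩ := hq
      have h1 : (QuotientGroup.mk (τ * x * τ⁻¹) : Γ ⧸ Δ).out⁻¹ * (τ * x * τ⁻¹) ∈ Δ := by
        rw [← QuotientGroup.eq]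
        exact QuotientGroup.out_eq' _
      refine ⟨(QuotientGroup.mk (τ * x * τ⁻¹) : Γ ⧸ Δ).out⁻¹ * (τ * (q.out * y) * τ⁻¹), ?_, ?_⟩
      · have h2 : (QuotientGroup.mk (τ * x * τ⁻¹) : Γ ⧸ Δ).out⁻¹ * (τ * (q.out * y) * τ⁻¹) =
            ((QuotientGroup.mk (τ * x * τ⁻¹) : Γ ⧸ Δ).out⁻¹ * (τ * x * τ⁻¹)) * (τ * ((q.out⁻¹ * x)⁻¹ * y) * τ⁻¹) := by
          group
        rw [h2]
        exact Δ.mul_mem h1 (hΔn.conj_mem _ (Δ.mul_mem (Δ.inv_mem hqx) hy) τ)
      · rw [mul_inv_cancel_left, hfc]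
        exact hy0
    · change f (τ * x * τ⁻¹) = 0
      rw [hfc]
      exact hfx
    · change (QuotientGroup.mk (τ * x * τ⁻¹) : Γ ⧸ Δ).out⁻¹ * (τ * x * τ⁻¹) ∈ Δ
      rw [← QuotientGroup.eq]
      exact QuotientGroup.out_eq' _
  · intro x hx hxZ y hy
    by_contra h0
    apply hxZ
    rw [Set.mem_iUnion₂]
    have h1 : (QuotientGroup.mk x : Γ ⧸ Δ).out⁻¹ * x ∈ Δ := by
      rw [← QuotientGroup.eq]
      exact QuotientGroup.out_eq' _
    refine ⟨QuotientGroup.mk x, ?_, hx, h1⟩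
    rw [hT]
    refine ⟨(QuotientGroup.mk x : Γ ⧸ Δ).out⁻¹ * x * y, Δ.mul_mem h1 hy, ?_⟩
    rw [mul_assoc, mul_inv_cancel_left]
    exact h0

theorem trace_mem {k : Type*} [Fintype k] [DecidableEq k] (U : Γ →* Matrix k k F) : (fun x => (U x).trace) ∈ coefAlg U 1 := by
  have h1 : (fun x => (U x).trace) = ∑ i, (fun x => U x i i) := by
    funext x
    rw [Finset.sum_apply]
    rfl
  rw [h1]
  exact Subalgebra.sum_mem _ fun i _ => mem1 U 1 i i

theorem trace_mem_dsum (V : Γ →* Matrix m m F) (ρ : Γ →* Matrix (Fin n) (Fin n) F) :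
    (fun x => (ρ x).trace) ∈ coefAlg (dsum V ρ) 1 := by
  have h1 : (fun x => (ρ x).trace) = ∑ i, (fun x => ρ x i i) := by
    funext x
    rw [Finset.sum_apply]
    rfl
  rw [h1]
  exact Subalgebra.sum_mem _ fun i _ => memρ V ρ i i

/-- `ρ` comes from `V`, up to a twist with finite image, which is trivial if the monodromy is connected -/
def Geo2 (V : Γ →* Matrix m m F) (ρ : Γ →* Matrix (Fin n) (Fin n) F) : Prop :=
  ∃ (a b d : ℕ) (θ : Γ →* Matrix (Fin d) (Fin d) F), Continuous θ ∧ (Set.range θ).Finite ∧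
    (Rigid (dsum V ρ) ⊤ → d = 1 ∧ ∀ x, θ x = 1) ∧ SubQuot (tprod (tens V 1 a b 0) θ) ρ

theorem geo2_of_mem (V : Γ →* Matrix m m F) (ρ : Γ →* Matrix (Fin n) (Fin n) F) (hirr : Irr ρ)
    (Δ : Subgroup Γ) [Δ.Normal] [CompactSpace Γ] [MeasurableSpace Γ] [BorelSpace Γ] (hΔo : IsOpen (Δ : Set Γ)) (hΔt : Rigid (dsum V ρ) ⊤ → Δ = ⊤)
    (h : ∀ i j, (fun x : Δ => ρ x i j) ∈ coefAlg (V.comp Δ.subtype) 1) : Geo2 V ρ := by
  classical
  have hbcV : ∀ W : Δ →* Matrix m m F, bc F W = W := by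
    intro W
    ext x i j
    rfl
  by_cases hR : Rigid (dsum V ρ) ⊤
  · have hΔ := hΔt hR
    have h1 : ∀ i j, (fun x => ρ x i j) ∈ coefAlg V 1 := by
      intro i j
      obtain ⟨f', hf', h2⟩ := res_surj V Δ _ (h i j)
      have h3 : (fun x => ρ x i j) = f' := by
        funext x
        exact h2 ⟨x, by rw [hΔ]; trivial⟩
      rw [h3]
      exact hf'
    obtain ⟨s, hs⟩ := subQuot_of_mem (ι := ℕ × ℕ) (fun s => ((Fin s.1 → m) × (Fin s.2 → m)) × Fin 1)
      (fun s => tprod (tens V 1 s.1 s.2 0) (1 : Γ →* Matrix (Fin 1) (Fin 1) F)) ρ hirr (by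
        intro i j
        have h2 := coefAlg_le_tensSpan V 1 _ (h1 i j)
        refine Submodule.span_mono ?_ h2
        rintro f ⟨⟨a, b, c⟩, p, q, rfl⟩
        refine ⟨(a, b), (p, 0), (q, 0), ?_⟩
        funext x
        rw [Pool.Agent.H40LT.tprod_apply]
        have h3 : tens V (1 : Γ →* F) a b c x p q = tens V (1 : Γ →* F) a b 0 x p q := by
          simp [tens, _root_.one_zpow]
        rw [h3]
        change _ = _ * (1 : Matrix (Fin 1) (Fin 1) F) 0 0
        rw [Matrix.one_apply_eq, mul_one])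
    refine ⟨s.1, s.2, 1, 1, continuous_const, ?_, fun _ => ⟨rfl, fun _ => rfl⟩, hs⟩
    refine Set.Finite.subset (Set.finite_singleton (1 : Matrix (Fin 1) (Fin 1) F)) ?_
    rintro _ ⟨x, rfl⟩
    rfl
  · haveI : Finite (Γ ⧸ Δ) := Subgroup.quotient_finite_of_isOpen Δ hΔo
    haveI : Fintype (Γ ⧸ Δ) := Fintype.ofFinite _
    haveI : Δ.FiniteIndex := Subgroup.finiteIndex_of_finite_quotient
    obtain ⟨a, b, hab⟩ := subQuot_of_res (G := F) V ρ hirr Δ (Fintype.equivFin (Γ ⧸ Δ)) (fun i i' => by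
      rw [hbcV]
      exact h i i')
    exact ⟨a, b, _, permRep F Δ (Fintype.equivFin (Γ ⧸ Δ)), permRep_continuous Δ hΔo _, permRep_finite Δ _,
      fun hR' => absurd hR' hR, hab⟩

/-- **Class functions on a compact group.** -/
theorem geo_of_class [CompactSpace Γ] [MeasurableSpace Γ] [BorelSpace Γ] (μ : Measure Γ) [IsFiniteMeasure μ]
    [μ.IsMulLeftInvariant] [μ.InnerRegularCompactLTTop] (V : Γ →* Matrix m m F)
    (ρ : Γ →* Matrix (Fin n) (Fin n) F) (hV : Continuous V) (hρ : Continuous ρ) (hirr : Irr ρ) (a b : Γ → F)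
    (ha : a ∈ coefAlg V 1) (hb : b ∈ coefAlg V 1) (hac : ∀ τ x, a (τ * x * τ⁻¹) = a x)
    (hbc : ∀ τ x, b (τ * x * τ⁻¹) = b x) :
    Geo2 V ρ ∨ ∃ Z : Set Γ, IsClosed Z ∧ μ Z = 0 ∧ (∀ x ∈ Z, ∀ τ, τ * x * τ⁻¹ ∈ Z) ∧
      ∀ x, a x ≠ 0 → b x ≠ 0 → b x * (ρ x).trace = a x → x ∈ Z := by
  classical
  have hU : Continuous (dsum V ρ) := cont_dsum V ρ hV hρ
  obtain ⟨Δ, hΔn, hΔo, hΔ, hΔt⟩ := exists_delta (dsum V ρ) hU
  have hle := coefAlg_le_dsum V ρ
  have hf : (fun x => b x * (ρ x).trace - a x) ∈ coefAlg (dsum V ρ) 1 :=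
    Subalgebra.sub_mem _ (Subalgebra.mul_mem _ (hle hb) (trace_mem_dsum V ρ)) (hle ha)
  have hfc : ∀ τ x, b (τ * x * τ⁻¹) * (ρ (τ * x * τ⁻¹)).trace - a (τ * x * τ⁻¹) = b x * (ρ x).trace - a x := by
    intro τ x
    rw [hac, hbc, map_mul, map_mul, Matrix.trace_mul_comm, ← mul_assoc, ← map_mul, inv_mul_cancel, map_one,
      one_mul]
  obtain ⟨Z, hZ1, hZ2, hZ3, hZ4⟩ := null_class μ (dsum V ρ) hU Δ hΔn hΔo hΔ _ hf hfc
  by_cases hgeo : Geo2 V ρ
  · exact Or.inl hgeo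
  · right
    refine ⟨Z, hZ1, hZ2, hZ3, fun x hax hbx hx => ?_⟩
    by_contra hxZ
    apply hgeo
    have h1 := hZ4 x (by rw [hx, sub_self]) hxZ
    have h2 : ∀ i j, (fun x : Δ => ρ x i j) ∈ coefAlg (V.comp Δ.subtype) 1 :=
      core V ρ hirr Δ (fun r hr s hs h => hΔ r (hle hr) s (hle hs) h) x a b ha hb hac hbc
        (fun y hy => sub_eq_zero.mp (h1 y hy)) ⟨1, Δ.one_mem, by rwa [mul_one]⟩ ⟨1, Δ.one_mem, by rwa [mul_one]⟩
    exact geo2_of_mem V ρ hirr Δ hΔo hΔt h2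

end

section

variable {K : Type} [Field K] [NumberField K]

theorem DensZero.union_finite {S T : Set (HeightOneSpectrum (𝓞 K))} (h : DensZero S) (hT : T.Finite) :
    DensZero (S ∪ T) := by
  unfold DensZero at h ⊢
  have hall := all_dens (K := K)
  have h3 : Tendsto (fun N : ℕ => (Nat.primeCounting N : ℝ)) atTop atTop :=
    tendsto_natCast_atTop_atTop.comp Nat.tendsto_primeCounting
  have h1 : Tendsto (fun N : ℕ => (Nat.card {v : HeightOneSpectrum (𝓞 K) // Ideal.absNorm v.asIdeal ≤ N} : ℝ))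
      atTop atTop := by
    have h4 := hall.pos_mul_atTop one_pos h3
    refine h4.congr' ?_
    filter_upwards [h3.eventually (eventually_gt_atTop 0)] with N hN
    exact div_mul_cancel₀ _ hN.ne'
  have h2 : Tendsto (fun N : ℕ => (T.ncard : ℝ) /
      (Nat.card {v : HeightOneSpectrum (𝓞 K) // Ideal.absNorm v.asIdeal ≤ N} : ℝ)) atTop (𝓝 0) :=
    tendsto_const_nhds.div_atTop h1
  have h5 := h.add h2
  rw [add_zero] at h5
  refine squeeze_zero (fun N => by positivity) (fun N => ?_) h5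
  rw [← add_div]
  refine div_le_div_of_nonneg_right ?_ (Nat.cast_nonneg _)
  have h6 : {v : HeightOneSpectrum (𝓞 K) | Ideal.absNorm v.asIdeal ≤ N ∧ v ∈ S ∪ T}.ncard ≤
      {v : HeightOneSpectrum (𝓞 K) | Ideal.absNorm v.asIdeal ≤ N ∧ v ∈ S}.ncard + T.ncard := by
    refine (Set.ncard_le_ncard ?_ ((fin_le (fun v => v ∈ S) N).union hT)).trans (Set.ncard_union_le _ _)
    rintro v ⟨hv, hv1 | hv1⟩
    · exact Or.inl ⟨hv, hv1⟩
    · exact Or.inr hv1
  exact_mod_cast h6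

variable {E : Type*} [Field E] {F : Type*} [Field F] [TopologicalSpace F] [IsTopologicalRing F] [T2Space F]
  [IsAlgClosed F] [CharZero F]

/-- the polynomial `A` in the coefficients of the characteristic polynomials -/
noncomputable def evc {Γ : Type*} [Group Γ] {s : ℕ} {N : Fin s → ℕ} (V : ∀ j, Γ →* Matrix (Fin (N j)) (Fin (N j)) F)
    (A : MvPolynomial (Fin s × ℕ) F) : Γ → F :=
  fun x => MvPolynomial.eval (fun p => (V p.1 x).charpoly.coeff p.2) A

theorem coeff_mem_of {Γ : Type*} [Group Γ] {N : ℕ} (V : Γ →* Matrix (Fin N) (Fin N) F) (R : Subalgebra F (Γ → F))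
    (hR : ∀ i j, (fun x => V x i j) ∈ R) (i : ℕ) : (fun x => (V x).charpoly.coeff i) ∈ R := by
  have h1 : (fun x => (V x).charpoly.coeff i) = (((matA R V hR).charpoly.coeff i : R) : Γ → F) := by
    funext x
    have h2 := congrArg (fun p : Polynomial F => p.coeff i)
      (Matrix.charpoly_map (matA R V hR) ((ev R x : R →ₐ[F] F) : R →+* F))
    have h3 : (matA R V hR).map ((ev R x : R →ₐ[F] F) : R →+* F) = V x := matA_ev R V hR x
    rw [h3] at h2
    change (V x).charpoly.coeff i = (Polynomial.map _ _).coeff i at h2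
    rw [Polynomial.coeff_map] at h2
    exact h2
  rw [h1]
  exact Subtype.prop _

theorem evc_mem {Γ : Type*} [Group Γ] {s : ℕ} {N : Fin s → ℕ} (V : ∀ j, Γ →* Matrix (Fin (N j)) (Fin (N j)) F)
    (A : MvPolynomial (Fin s × ℕ) F) : evc V A ∈ coefAlg (blk V) 1 := by
  induction A using MvPolynomial.induction_on with
  | C c =>
    have h1 : evc V (MvPolynomial.C c) = algebraMap F (Γ → F) c := by
      funext x
      exact MvPolynomial.eval_C c
    rw [h1]
    exact Subalgebra.algebraMap_mem _ c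
  | add p q hp hq =>
    have h1 : evc V (p + q) = evc V p + evc V q := by
      funext x
      exact map_add _ _ _
    rw [h1]
    exact Subalgebra.add_mem _ hp hq
  | mul_X p i hp =>
    have h1 : evc V (p * MvPolynomial.X i) = evc V p * fun x => (V i.1 x).charpoly.coeff i.2 := by
      funext x
      change MvPolynomial.eval _ (p * MvPolynomial.X i) = _
      rw [map_mul, MvPolynomial.eval_X]
      rfl
    rw [h1]
    refine Subalgebra.mul_mem _ hp (coeff_mem_of (V i.1) _ (fun a b => ?_) i.2)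
    have h2 : (fun x => V i.1 x a b) = fun x => blk V x ⟨i.1, a⟩ ⟨i.1, b⟩ := by
      funext x
      rw [blk_apply]
    rw [h2]
    exact mem1 (blk V) 1 _ _

theorem evc_conj {Γ : Type*} [Group Γ] {s : ℕ} {N : Fin s → ℕ} (V : ∀ j, Γ →* Matrix (Fin (N j)) (Fin (N j)) F)
    (A : MvPolynomial (Fin s × ℕ) F) (τ x : Γ) : evc V A (τ * x * τ⁻¹) = evc V A x := by
  unfold evc
  congr 2
  funext p
  rw [charpoly_conj]

theorem blk_cont {Γ : Type*} [Group Γ] [TopologicalSpace Γ] {s : ℕ} {N : Fin s → ℕ}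
    (V : ∀ j, Γ →* Matrix (Fin (N j)) (Fin (N j)) F) (hV : ∀ j, Continuous (V j)) : Continuous (blk V) := by
  change Continuous fun x => Matrix.blockDiagonal' fun j => V j x
  refine Continuous.matrix_blockDiagonal' ?_
  exact continuous_pi fun j => hV j

/-- **Frobenius traces which are rational functions of the Frobenius polynomials.** -/
theorem main {s : ℕ} (P : Fin s → HeightOneSpectrum (𝓞 K) → Polynomial E) (Q : HeightOneSpectrum (𝓞 K) → Polynomial E)
    (A B : MvPolynomial (Fin s × ℕ) E)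
    (h : ¬ DensZero {v | MvPolynomial.eval (fun p => (P p.1 v).coeff p.2) A ≠ 0 ∧
      MvPolynomial.eval (fun p => (P p.1 v).coeff p.2) B ≠ 0 ∧
      MvPolynomial.eval (fun p => (P p.1 v).coeff p.2) B * -(Q v).nextCoeff =
        MvPolynomial.eval (fun p => (P p.1 v).coeff p.2) A})
    (ι : E →+* F) (N : Fin s → ℕ) (n : ℕ) (V : ∀ j, GK K →* Matrix (Fin (N j)) (Fin (N j)) F)
    (ρ : GK K →* Matrix (Fin n) (Fin n) F)
    (hV : ∀ j, Continuous (V j)) (hρ : Continuous ρ) (hP : ∀ j, FrobPoly (P j) ι (V j)) (hQ : FrobPoly Q ι ρ)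
    (hirr : Irr ρ) : Geo2 (blk V) ρ := by
  letI : MeasurableSpace (GK K) := borel _
  haveI : BorelSpace (GK K) := ⟨rfl⟩
  haveI : Nonempty (Fin n) := hirr.1
  rcases geo_of_class (Measure.haar : Measure (GK K)) (blk V) ρ (blk_cont V hV) hρ hirr (evc V (A.map ι))
    (evc V (B.map ι)) (evc_mem V _) (evc_mem V _) (evc_conj V _) (evc_conj V _) with hg | ⟨Z, hZ1, hZ2, hZ3, hZ4⟩
  · exact hg
  · exfalso
    apply h
    have h1 := densZero_of_null (Measure.haar : Measure (GK K)) (by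
      exact (isOpen_univ.measure_pos _ ⟨1, trivial⟩).ne') Z hZ1 hZ2 hZ3
    have hfin : (⋃ j, {v | ¬ ∀ σ : GK K, IsFrob v σ → (V j σ).charpoly = (P j v).map ι}).Finite :=
      Set.finite_iUnion fun j => hP j
    refine (DensZero.union_finite h1 (hfin.union hQ)).mono ?_
    rintro v ⟨hA, hB, hAB⟩
    by_cases hvP : ∀ j, ∀ σ : GK K, IsFrob v σ → (V j σ).charpoly = (P j v).map ι
    · by_cases hvQ : ∀ σ : GK K, IsFrob v σ → (ρ σ).charpoly = (Q v).map ι
      · left
        obtain ⟨σ, hσ⟩ := Pool.Agent.W401.Frob.exists_frob v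
        have he : ∀ A : MvPolynomial (Fin s × ℕ) E, evc V (A.map ι) σ =
            ι (MvPolynomial.eval (fun p => (P p.1 v).coeff p.2) A) := by
          intro A
          unfold evc
          rw [MvPolynomial.eval_map]
          have h3 : (fun p : Fin s × ℕ => (V p.1 σ).charpoly.coeff p.2) = fun p => ι ((P p.1 v).coeff p.2) := by
            funext p
            rw [hvP p.1 σ hσ]
            exact Polynomial.coeff_map _ _
          rw [h3]
          have h4 := MvPolynomial.eval₂_comp_left ι (RingHom.id E) (fun p : Fin s × ℕ => (P p.1 v).coeff p.2) A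
          rw [RingHom.comp_id] at h4
          rw [MvPolynomial.eval₂_id] at h4
          exact h4.symm
        have ht : (ρ σ).trace = ι (-(Q v).nextCoeff) := by
          rw [Matrix.trace_eq_neg_charpoly_nextCoeff, hvQ σ hσ, Polynomial.nextCoeff_map ι.injective, map_neg]
        refine ⟨σ, hZ4 σ ?_ ?_ ?_, hσ⟩
        · rw [he]
          exact (map_ne_zero ι).mpr hA
        · rw [he]
          exact (map_ne_zero ι).mpr hB
        · rw [he, he, ht, ← map_mul, hAB]
      · exact Or.inr (Or.inr hvQ)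
    · right
      left
      push Not at hvP
      obtain ⟨j, σ, hσ, hne⟩ := hvP
      exact Set.mem_iUnion.mpr ⟨j, fun hcon => hne (hcon σ hσ)⟩

end

end Pool.Agent.H40RT
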