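import Mathlib
import Pool.Agent.H40RT.Dens
import Pool.Agent.H40LT.Pts

/-!
# Traces which are algebraic over the coefficients of another representation
-/

set_option autoImplicit false
set_option linter.unusedSectionVars false
set_option linter.style.haveILetI false

namespace Pool.Agent.H40RT

open Module Matrix Pool.Agent.H40GO Pool.Agent.H40LT

/-- points extend to integral extensions -/
theorem lift_point {F S : Type*} [Field F] [CommRing S] [Algebra F S] [IsAlgClosed F] (B B' : Subalgebra F S)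
    (hBB' : B ≤ B') (hint : ∀ z ∈ B', IsIntegral B z) (y : B →ₐ[F] F) :
    ∃ y' : B' →ₐ[F] F, ∀ b (hb : b ∈ B), y' ⟨b, hBB' hb⟩ = y ⟨b, hb⟩ := by
  letI : Algebra B B' := ((Subalgebra.inclusion hBB' : B →ₐ[F] B') : B →+* B').toAlgebra
  have hmap : ∀ b : B, algebraMap B B' b = ⟨b, hBB' b.2⟩ := fun b => rfl
  haveI : Algebra.IsIntegral B B' := by
    constructor
    intro z
    obtain ⟨p, hp, hpz⟩ := hint z z.2
    refine ⟨p, hp, ?_⟩
    apply Subtype.ext
    have h2 := Polynomial.hom_eval₂ p (algebraMap B B') (B'.val : B' →+* S) z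
    have h3 : (B'.val : B' →+* S).comp (algebraMap B B') = algebraMap B S := rfl
    rw [h3] at h2
    exact h2.trans hpz
  obtain ⟨P, hP⟩ : ∃ P : Ideal B, P = RingHom.ker (y : B →+* F) := ⟨_, rfl⟩
  haveI : P.IsMaximal := by
    rw [hP]
    exact RingHom.ker_isMaximal_of_surjective (y : B →+* F) fun c => ⟨algebraMap F B c, y.commutes c⟩
  obtain ⟨Q, hQm, hQ⟩ := Ideal.exists_ideal_over_maximal_of_isIntegral (S := B') P (by
    intro b hb
    have h0 : algebraMap B B' b = 0 := hb
    have h1 : b = 0 := by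
      apply Subtype.ext
      exact congrArg (fun z : B' => (z : S)) h0
    rw [h1]
    exact P.zero_mem)
  letI : Field (B' ⧸ Q) := Ideal.Quotient.field Q
  have hy : ∀ b : B, Ideal.Quotient.mk Q (algebraMap B B' b) = algebraMap F (B' ⧸ Q) (y b) := by
    intro b
    have h1 : b - algebraMap F B (y b) ∈ P := by
      rw [hP, RingHom.mem_ker, map_sub]
      change y b - y (algebraMap F B (y b)) = 0
      rw [AlgHom.commutes]
      exact sub_self _
    rw [← hQ, Ideal.mem_comap, map_sub, ← Ideal.Quotient.eq_zero_iff_mem, map_sub, sub_eq_zero] at h1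
    rw [h1]
    rfl
  haveI : Algebra.IsIntegral F (B' ⧸ Q) := by
    constructor
    intro z
    obtain ⟨z, rfl⟩ := Ideal.Quotient.mk_surjective z
    obtain ⟨p, hp, hpz⟩ := Algebra.IsIntegral.isIntegral (R := B) z
    refine ⟨p.map (y : B →+* F), hp.map _, ?_⟩
    rw [Polynomial.eval₂_map]
    have h1 : (algebraMap F (B' ⧸ Q)).comp (y : B →+* F) = (Ideal.Quotient.mk Q).comp (algebraMap B B') := by
      ext b
      exact (hy b).symm
    rw [h1, ← Polynomial.hom_eval₂, hpz, map_zero]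
  have hb := IsAlgClosed.algebraMap_bijective_of_isIntegral (k := F) (K := B' ⧸ Q)
  let E : F ≃ₐ[F] (B' ⧸ Q) := AlgEquiv.ofBijective (Algebra.ofId F (B' ⧸ Q)) hb
  refine ⟨(E.symm : (B' ⧸ Q) →ₐ[F] F).comp (Ideal.Quotient.mkₐ F Q), fun b hb => ?_⟩
  change E.symm (Ideal.Quotient.mk Q ⟨b, hBB' hb⟩) = _
  have h1 := hy ⟨b, hb⟩
  rw [hmap] at h1
  rw [h1]
  exact E.symm_apply_apply _

section

variable {F : Type*} [Field F] {Γ : Type*} [Group Γ] {m n : Type*} [Fintype m] [DecidableEq m] [Fintype n]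
  [DecidableEq n] (W : Γ →* Matrix m m F) (ρ : Γ →* Matrix n n F)

/-- the coefficients of `W`, in the algebra of `W` and `ρ` -/
def AA : Subalgebra F (RR W ρ) := (coefAlg W 1).comap (RR W ρ).val

theorem mem_AA (r : RR W ρ) : r ∈ AA W ρ ↔ (r : Γ → F) ∈ coefAlg W 1 := Iff.rfl

/-- right translation -/
def rtR (g : Γ) : RR W ρ →ₐ[F] RR W ρ where
  toFun r := ⟨rt g (r : Γ → F), (RR_comul W ρ r r.2).rt_mem g⟩
  map_one' := rfl
  map_mul' _ _ := rfl
  map_zero' := rfl
  map_add' _ _ := rfl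
  commutes' _ := rfl

theorem rtR_inj (g : Γ) : Function.Injective (rtR W ρ g) := by
  intro r s h
  apply Subtype.ext
  funext x
  have h1 := congrFun (congrArg Subtype.val h) (x * g⁻¹)
  change (r : Γ → F) (x * g⁻¹ * g) = (s : Γ → F) (x * g⁻¹ * g) at h1
  rwa [inv_mul_cancel_right] at h1

/-- inversion -/
def ivR : RR W ρ →ₐ[F] RR W ρ where
  toFun r := ⟨iv (r : Γ → F), (coefAlg_hopf (dsum W ρ) 1).inv r r.2⟩
  map_one' := rfl
  map_mul' _ _ := rfl
  map_zero' := rfl
  map_add' _ _ := rfl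
  commutes' _ := rfl

theorem ivR_inj : Function.Injective (ivR W ρ) := by
  intro r s h
  apply Subtype.ext
  funext x
  have h1 := congrFun (congrArg Subtype.val h) x⁻¹
  change (r : Γ → F) x⁻¹⁻¹ = (s : Γ → F) x⁻¹⁻¹ at h1
  rwa [inv_inv] at h1

variable {W ρ}

theorem alg_map (φ : RR W ρ →ₐ[F] RR W ρ) (hφ : ∀ a ∈ AA W ρ, φ a ∈ AA W ρ) (hinj : Function.Injective φ)
    {x : RR W ρ} (hx : IsAlgebraic (AA W ρ) x) : IsAlgebraic (AA W ρ) (φ x) := by
  obtain ⟨p, hp0, hp⟩ := hx
  let ψ : AA W ρ →+* AA W ρ :=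
    { toFun := fun a => ⟨φ a, hφ a a.2⟩
      map_one' := Subtype.ext (map_one φ)
      map_mul' := fun a b => Subtype.ext (map_mul φ _ _)
      map_zero' := Subtype.ext (map_zero φ)
      map_add' := fun a b => Subtype.ext (map_add φ _ _) }
  have hψ : Function.Injective ψ := by
    intro a b h
    apply Subtype.ext
    exact hinj (congrArg Subtype.val h)
  refine ⟨p.map ψ, (Polynomial.map_ne_zero_iff hψ).2 hp0, ?_⟩
  rw [Polynomial.aeval_def, Polynomial.eval₂_map]
  have h1 := Polynomial.hom_eval₂ p (algebraMap (AA W ρ) (RR W ρ)) (φ : RR W ρ →+* RR W ρ) x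
  rw [Polynomial.aeval_def] at hp
  rw [hp, map_zero] at h1
  exact h1.symm

variable (W ρ)

/-- the function `tr (S ρ x)` -/
def tS (S : Matrix n n F) : RR W ρ := ∑ i, ∑ j, S i j • ρm W ρ j i

theorem tS_apply (S : Matrix n n F) (x : Γ) : (tS W ρ S : Γ → F) x = (S * ρ x).trace := by
  unfold tS
  rw [AddSubmonoidClass.coe_finsetSum, Finset.sum_apply]
  refine Finset.sum_congr rfl fun i _ => ?_
  rw [AddSubmonoidClass.coe_finsetSum, Finset.sum_apply]
  rfl

theorem tS_add (S S' : Matrix n n F) : tS W ρ (S + S') = tS W ρ S + tS W ρ S' := by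
  apply Subtype.ext
  funext x
  change (tS W ρ (S + S') : Γ → F) x = (tS W ρ S : Γ → F) x + (tS W ρ S' : Γ → F) x
  rw [tS_apply, tS_apply, tS_apply, add_mul, Matrix.trace_add]

theorem tS_smul (c : F) (S : Matrix n n F) : tS W ρ (c • S) = c • tS W ρ S := by
  apply Subtype.ext
  funext x
  change (tS W ρ (c • S) : Γ → F) x = c * (tS W ρ S : Γ → F) x
  rw [tS_apply, tS_apply, smul_mul_assoc, Matrix.trace_smul]
  rfl

theorem tS_zero : tS W ρ 0 = 0 := by
  apply Subtype.ext
  funext x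
  change (tS W ρ 0 : Γ → F) x = 0
  rw [tS_apply, zero_mul, Matrix.trace_zero]

/-- **Algebraicity.** -/
theorem alg_RR [IsAlgClosed F] [IsDomain (RR W ρ)] (hirr : Irr ρ) (S S' : Matrix n n F) (hS : S * S' = 1)
    (h : IsAlgebraic (AA W ρ) (tS W ρ S)) : Algebra.IsAlgebraic (AA W ρ) (RR W ρ) := by
  classical
  haveI : IsDomain (AA W ρ) := inferInstance
  obtain ⟨C, hC⟩ : ∃ C, C = Subalgebra.algebraicClosure (AA W ρ) (RR W ρ) := ⟨_, rfl⟩
  have hCm : ∀ x, x ∈ C ↔ IsAlgebraic (AA W ρ) x := by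
    intro x
    rw [hC]
    exact Subalgebra.mem_algebraicClosure _ _
  have hsmul : ∀ (c : F) (x : RR W ρ), x ∈ C → c • x ∈ C := by
    intro c x hx
    have h1 : c • x = (algebraMap F (AA W ρ) c) • x := by
      rw [Algebra.smul_def, Algebra.smul_def]
      rfl
    rw [h1]
    exact C.smul_mem hx _
  -- translates
  have h1 : ∀ g, tS W ρ (ρ g * S) ∈ C := by
    intro g
    rw [hCm]
    have h2 := alg_map (rtR W ρ g) (fun a ha => ((coefAlg_hopf W 1).comul _ ha).rt_mem g) (rtR_inj W ρ g) h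
    have h3 : rtR W ρ g (tS W ρ S) = tS W ρ (ρ g * S) := by
      apply Subtype.ext
      funext x
      change (tS W ρ S : Γ → F) (x * g) = (tS W ρ (ρ g * S) : Γ → F) x
      rw [tS_apply, tS_apply, map_mul, ← mul_assoc, Matrix.trace_mul_comm, mul_assoc]
    rwa [h3] at h2
  have h2 : ∀ M : Matrix n n F, tS W ρ (M * S) ∈ C := by
    intro M
    have hM := burnside ρ hirr M
    induction hM using Submodule.span_induction with
    | mem x hx =>
      obtain ⟨g, rfl⟩ := hx
      exact h1 g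
    | zero =>
      rw [zero_mul, tS_zero]
      exact C.zero_mem
    | add x y _ _ hx hy =>
      rw [add_mul, tS_add]
      exact C.add_mem hx hy
    | smul c x _ hx =>
      rw [smul_mul_assoc, tS_smul]
      exact hsmul c _ hx
  have h3 : ∀ M : Matrix n n F, tS W ρ M ∈ C := by
    intro M
    have h4 := h2 (M * S')
    rwa [mul_assoc, mul_eq_one_comm.mp hS, mul_one] at h4
  have h4 : ∀ i j, ρm W ρ i j ∈ C := by
    intro i j
    have h5 := h3 (Matrix.single j i 1)
    have h6 : tS W ρ (Matrix.single j i 1) = ρm W ρ i j := by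
      apply Subtype.ext
      funext x
      change (tS W ρ (Matrix.single j i 1) : Γ → F) x = ρ x i j
      rw [tS_apply, Matrix.trace_mul_comm]
      simp [Matrix.trace_mul_single]
    rwa [h6] at h5
  have h5 : ∀ i j, (⟨fun x => ρ x⁻¹ i j, memρ' W ρ i j⟩ : RR W ρ) ∈ C := by
    intro i j
    rw [hCm]
    exact alg_map (ivR W ρ) (fun a ha => (coefAlg_hopf W 1).inv _ ha) (ivR_inj W ρ) ((hCm _).1 (h4 i j))
  have hA : ∀ a : RR W ρ, a ∈ AA W ρ → a ∈ C := fun a ha => C.algebraMap_mem (⟨a, ha⟩ : AA W ρ)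
  constructor
  rintro ⟨r, hr⟩
  have key : ∀ r ∈ Algebra.adjoin F (coefSet (dsum W ρ) 1), ∀ hr : r ∈ RR W ρ, (⟨r, hr⟩ : RR W ρ) ∈ C := by
    intro r hr
    induction hr using Algebra.adjoin_induction with
    | mem s hs =>
      intro hr
      rcases hs with (⟨⟨i, j⟩, rfl⟩ | ⟨⟨i, j⟩, rfl⟩) | (rfl | rfl)
      · rcases i with i | i <;> rcases j with j | j
        · exact hA _ (mem1 W 1 i j)
        · exact hA _ (Subalgebra.zero_mem _)
        · exact hA _ (Subalgebra.zero_mem _)
        · exact h4 i j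
      · rcases i with i | i <;> rcases j with j | j
        · exact hA _ (mem2 W 1 i j)
        · exact hA _ (Subalgebra.zero_mem _)
        · exact hA _ (Subalgebra.zero_mem _)
        · exact h5 i j
      · exact C.one_mem
      · exact C.one_mem
    | algebraMap c =>
      intro hr
      exact hA _ ((coefAlg W 1).algebraMap_mem c)
    | add x z hx' hz' hx hz =>
      intro h'
      exact C.add_mem (hx hx') (hz hz')
    | mul x z hx' hz' hx hz =>
      intro h'
      exact C.mul_mem (hx hx') (hz hz')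
  exact (hCm _).1 (key r hr hr)

theorem bc_self (V : Γ →* Matrix m m F) : bc F V = V := by
  ext x i j
  rfl

/-- **Integrality.** -/
theorem int_RR [IsAlgClosed F] [CharZero F] [IsDomain (RR W ρ)] (h : Algebra.IsAlgebraic (AA W ρ) (RR W ρ)) (i j : n) :
    IsIntegral (coefAlg W 1) (fun x => ρ x i j) := by
  have h1 := integral_of_algebraic (G := F) W ρ h i j
  have h2 := bc_self W
  have h3 := bc_self ρ
  rw [h3] at h1
  exact h2 ▸ h1

/-- the inverse is integral, too -/
theorem int_inv (hint : ∀ i j, IsIntegral (coefAlg W 1) (fun x => ρ x i j)) (i j : n) :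
    IsIntegral (coefAlg W 1) (fun x => ρ x⁻¹ i j) := by
  obtain ⟨p, hp1, hp2⟩ := hint i j
  let s : coefAlg W 1 →+* coefAlg W 1 :=
    { toFun := fun a => ⟨iv (a : Γ → F), (coefAlg_hopf W 1).inv a a.2⟩
      map_one' := rfl
      map_mul' := fun _ _ => rfl
      map_zero' := rfl
      map_add' := fun _ _ => rfl }
  refine ⟨p.map s, hp1.map s, ?_⟩
  rw [Polynomial.eval₂_map]
  have h1 := Polynomial.hom_eval₂ p (algebraMap (coefAlg W 1) (Γ → F))
    ((iv : (Γ → F) →ₐ[F] (Γ → F)) : (Γ → F) →+* (Γ → F)) (fun x => ρ x i j)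
  rw [hp2, map_zero] at h1
  exact h1.symm

/-- **The points over the unit element are scalars.** -/
theorem pm_scalar [IsAlgClosed F] [IsDomain (RR W ρ)] (hirr : Irr ρ)
    (hint : ∀ i j, IsIntegral (coefAlg W 1) (fun x => ρ x i j)) (y : RR W ρ →ₐ[F] F) (hy : Pt W ρ y) :
    ∃ c : F, pm W ρ y = c • (1 : Matrix n n F) := by
  have h1 : ∀ M : Matrix n n F, pm W ρ y * M = M * pm W ρ y := by
    intro M
    have hM := burnside ρ hirr M
    induction hM using Submodule.span_induction with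
    | mem x hx =>
      obtain ⟨g, rfl⟩ := hx
      exact pm_comm W ρ hint y hy g
    | zero => rw [mul_zero, zero_mul]
    | add x y _ _ hx hy => rw [mul_add, add_mul, hx, hy]
    | smul c x _ hx => rw [mul_smul_comm, smul_mul_assoc, hx]
  obtain ⟨c, hc⟩ := Matrix.mem_range_scalar_of_commute_single (M := pm W ρ y) (fun i j _ => (h1 _).symm)
  refine ⟨c, ?_⟩
  rw [← hc]
  ext i j
  simp [Matrix.scalar_apply, Matrix.diagonal_apply, Matrix.one_apply]

/-- right translation by a point -/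
def tau (y : RR W ρ →ₐ[F] F) (hy : Pt W ρ y) : RR W ρ →ₐ[AA W ρ] RR W ρ where
  toFun r := ⟨fun x => y ⟨lt x (r : Γ → F), (RR_comul W ρ r r.2).lt_mem x⟩, conv_mem (RR_comul W ρ) y r⟩
  map_one' := by
    apply Subtype.ext
    funext x
    exact map_one y
  map_mul' r s := by
    apply Subtype.ext
    funext x
    exact map_mul y ⟨lt x (r : Γ → F), (RR_comul W ρ r r.2).lt_mem x⟩ ⟨lt x (s : Γ → F), (RR_comul W ρ s s.2).lt_mem x⟩
  map_zero' := by
    apply Subtype.ext
    funext x
    exact map_zero y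
  map_add' r s := by
    apply Subtype.ext
    funext x
    exact map_add y ⟨lt x (r : Γ → F), (RR_comul W ρ r r.2).lt_mem x⟩ ⟨lt x (s : Γ → F), (RR_comul W ρ s s.2).lt_mem x⟩
  commutes' a := by
    apply Subtype.ext
    funext x
    have h1 := hy (lt x ((a : RR W ρ) : Γ → F)) (((coefAlg_hopf W 1).comul _ a.2).lt_mem x)
    rw [lt_apply, mul_one] at h1
    exact h1

theorem tau_tS (y : RR W ρ →ₐ[F] F) (hy : Pt W ρ y) (c : F) (hc : pm W ρ y = c • (1 : Matrix n n F))
    (S : Matrix n n F) : tau W ρ y hy (tS W ρ S) = c • tS W ρ S := by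
  apply Subtype.ext
  funext x
  change y ⟨lt x (tS W ρ S : Γ → F), _⟩ = c * (tS W ρ S : Γ → F) x
  have h1 : (⟨lt x (tS W ρ S : Γ → F), (RR_comul W ρ _ (tS W ρ S).2).lt_mem x⟩ : RR W ρ) =
      ∑ i, ∑ j, (S * ρ x) i j • ρm W ρ j i := by
    apply Subtype.ext
    funext z
    change (tS W ρ S : Γ → F) (x * z) = _
    have h2 : (tS W ρ (S * ρ x) : Γ → F) z = (tS W ρ S : Γ → F) (x * z) := by
      rw [tS_apply, tS_apply, map_mul, mul_assoc]
    rw [← h2]
    rfl
  rw [h1, map_sum]
  have h3 : ∀ i, y (∑ j, (S * ρ x) i j • ρm W ρ j i) = ∑ j, (S * ρ x) i j * pm W ρ y j i := by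
    intro i
    rw [map_sum]
    refine Finset.sum_congr rfl fun j _ => ?_
    rw [map_smul]
    rfl
  rw [Finset.sum_congr rfl fun i _ => h3 i, tS_apply, hc]
  change ((S * ρ x) * (c • (1 : Matrix n n F))).trace = _
  rw [mul_smul_comm, mul_one, Matrix.trace_smul]
  rfl

/-- the scalars given by points -/
def Sc : Set F := {c | ∃ y : RR W ρ →ₐ[F] F, Pt W ρ y ∧ pm W ρ y = c • (1 : Matrix n n F)}

theorem one_mem_Sc : (1 : F) ∈ Sc W ρ := ⟨ev (RR W ρ) 1, pt_one W ρ, by rw [pm_one, one_smul]⟩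

theorem mul_mem_Sc (c d : F) (hc : c ∈ Sc W ρ) (hd : d ∈ Sc W ρ) : c * d ∈ Sc W ρ := by
  obtain ⟨y, hy, hyc⟩ := hc
  obtain ⟨z, hz, hzd⟩ := hd
  obtain ⟨w, hw, hw'⟩ := pm_mul W ρ y z hy hz
  refine ⟨w, hw, ?_⟩
  rw [hw', hyc, hzd, smul_mul_smul_comm, one_mul]

theorem Sc_finite [IsDomain (RR W ρ)] (S : Matrix n n F) (hS0 : tS W ρ S ≠ 0) (q : Polynomial (AA W ρ)) (hq : q ≠ 0)
    (hqS : Polynomial.aeval (tS W ρ S) q = 0) : (Sc W ρ).Finite ∧ (Sc W ρ).ncard ≤ q.natDegree := by
  classical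
  have hq' : q.map (algebraMap (AA W ρ) (RR W ρ)) ≠ 0 := (Polynomial.map_ne_zero_iff Subtype.val_injective).2 hq
  have hsub : (fun c : F => c • tS W ρ S) '' Sc W ρ ⊆ ((q.map (algebraMap (AA W ρ) (RR W ρ))).roots.toFinset : Set (RR W ρ)) := by
    rintro _ ⟨c, ⟨y, hy, hyc⟩, rfl⟩
    rw [Finset.mem_coe, Multiset.mem_toFinset, Polynomial.mem_roots hq', Polynomial.IsRoot.def, Polynomial.eval_map]
    change Polynomial.aeval (c • tS W ρ S) q = 0
    rw [← tau_tS W ρ y hy c hyc S, Polynomial.aeval_algHom_apply, hqS, map_zero]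
  have hinj : Function.Injective (fun c : F => c • tS W ρ S) := by
    intro c d h
    have h1 : (c - d) • tS W ρ S = 0 := by
      rw [sub_smul]
      exact sub_eq_zero.mpr h
    rw [Algebra.smul_def, mul_eq_zero] at h1
    rcases h1 with h1 | h1
    · have h2 := congrFun (congrArg Subtype.val h1) 1
      exact sub_eq_zero.mp h2
    · exact absurd h1 hS0
  have hfin : ((fun c : F => c • tS W ρ S) '' Sc W ρ).Finite := (Finset.finite_toSet _).subset hsub
  refine ⟨Set.Finite.of_finite_image hfin hinj.injOn, ?_⟩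
  rw [← Set.ncard_image_of_injective _ hinj]
  refine (Set.ncard_le_ncard hsub (Finset.finite_toSet _)).trans ?_
  rw [Set.ncard_coe_finset]
  refine (Multiset.toFinset_card_le _).trans ((Polynomial.card_roots' _).trans ?_)
  exact Polynomial.natDegree_map_le

theorem Sc_pow [Nonempty n] (hfin : (Sc W ρ).Finite) (c : F) (hc : c ∈ Sc W ρ) : c ^ (Sc W ρ).ncard = 1 := by
  classical
  have h0 : ∀ c ∈ Sc W ρ, c ≠ 0 := by
    rintro c ⟨y, hy, hyc⟩ h0
    have h1 := pm_isUnit W ρ y
    rw [hyc, h0, zero_smul] at h1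
    exact not_isUnit_zero h1
  have hinv : ∀ c ∈ Sc W ρ, c⁻¹ ∈ Sc W ρ := by
    intro c hc
    have hpow : ∀ k : ℕ, c ^ k ∈ Sc W ρ := by
      intro k
      induction k with
      | zero => rw [pow_zero]; exact one_mem_Sc W ρ
      | succ k ih => rw [pow_succ]; exact mul_mem_Sc W ρ _ _ ih hc
    have h1 : ¬ Function.Injective (fun k : ℕ => c ^ k) := fun hi =>
      Set.infinite_range_of_injective hi (hfin.subset (by rintro _ ⟨k, rfl⟩; exact hpow k))
    obtain ⟨k, l, hkl, hne⟩ : ∃ k l : ℕ, c ^ k = c ^ l ∧ k < l := by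
      by_contra hcon
      push Not at hcon
      apply h1
      intro a b hab
      by_contra hne
      rcases lt_or_gt_of_ne hne with h2 | h2
      · exact absurd (hcon a b hab) (not_le.mpr h2)
      · exact absurd (hcon b a hab.symm) (not_le.mpr h2)
    obtain ⟨d, rfl⟩ := Nat.exists_eq_add_of_lt hne
    have h2 : c ^ (d + 1) = 1 := by
      have h3 : c ^ k * c ^ (d + 1) = c ^ k * 1 := by
        rw [← pow_add, mul_one, hkl]
        congr 1
      exact mul_left_cancel₀ (pow_ne_zero k (h0 c hc)) h3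
    have h3 : c⁻¹ = c ^ d := by
      apply inv_eq_of_mul_eq_one_left
      rw [← pow_succ, h2]
    rw [h3]
    exact hpow d
  let L : Subgroup Fˣ :=
    { carrier := {u | (u : F) ∈ Sc W ρ}
      mul_mem' := fun {a b} ha hb => mul_mem_Sc W ρ _ _ ha hb
      one_mem' := one_mem_Sc W ρ
      inv_mem' := fun {a} ha => by
        change ((a⁻¹ : Fˣ) : F) ∈ Sc W ρ
        rw [Units.val_inv_eq_inv_val]
        exact hinv _ ha }
  have hcard : Nat.card L = (Sc W ρ).ncard := by
    rw [← Nat.card_coe_set_eq]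
    refine Nat.card_congr
      { toFun := fun u => ⟨((u : Fˣ) : F), u.2⟩
        invFun := fun c => ⟨Units.mk0 c (h0 c c.2), c.2⟩
        left_inv := fun u => by
          apply Subtype.ext
          apply Units.ext
          rfl
        right_inv := fun c => rfl }
  have h1 : (⟨Units.mk0 c (h0 c hc), hc⟩ : L) ^ Nat.card L = 1 := pow_card_eq_one'
  rw [hcard] at h1
  have h2 := congrArg (fun u : L => ((u : Fˣ) : F)) h1
  exact h2

/-- **The tensor constructions of degree zero modulo the number of scalars.** -/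
theorem tens_coeff_mem [IsAlgClosed F] [CharZero F] [IsDomain (RR W ρ)] [Nonempty n] (hirr : Irr ρ)
    (hint : ∀ i j, IsIntegral (coefAlg W 1) (fun x => ρ x i j)) (hfin : (Sc W ρ).Finite) (a b : ℕ)
    (hab : a ≡ b [MOD (Sc W ρ).ncard]) (p q : (Fin a → n) × (Fin b → n)) :
    (fun x => tens ρ 1 a b 0 x p q) ∈ coefAlg W 1 := by
  classical
  have hprod : ∀ p q : (Fin a → n) × (Fin b → n), (fun x => tens ρ 1 a b 0 x p q) =
      (∏ s, (fun x => ρ x (p.1 s) (q.1 s))) * (∏ t, (fun x => ρ x⁻¹ (q.2 t) (p.2 t))) := by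
    intro p q
    funext x
    simp [tens, Finset.prod_apply]
  refine coeff_mem (coefAlg_hopf W 1) (tens ρ 1 a b 0) (fun p q => ?_) ?_ p q
  · rw [hprod]
    exact (IsIntegral.prod _ fun s _ => hint _ _).mul (IsIntegral.prod _ fun t _ => int_inv W ρ hint _ _)
  · intro B hAB hTB y hy
    -- extension of the point
    have hBint : ∀ z ∈ B ⊔ RR W ρ, IsIntegral B z := by
      have hle : B ⊔ RR W ρ ≤ (integralClosure B (Γ → F)).restrictScalars F := by
        refine sup_le ?_ ?_
        · intro z hz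
          exact isIntegral_algebraMap (A := Γ → F) (x := (⟨z, hz⟩ : B))
        · refine RR_le W ρ hint _ ?_ ?_
          · intro z hz
            exact isIntegral_algebraMap (A := Γ → F) (x := (⟨z, hAB hz⟩ : B))
          · intro i j
            obtain ⟨p, hp1, hp2⟩ := hint i j
            refine ⟨p.map (Subalgebra.inclusion hAB : coefAlg W 1 →ₐ[F] B), hp1.map _, ?_⟩
            rw [Polynomial.eval₂_map]
            exact hp2
      exact fun z hz => hle hz
    obtain ⟨y', hy'⟩ := lift_point B (B ⊔ RR W ρ) le_sup_left hBint y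
    obtain ⟨z, hz⟩ : ∃ z : RR W ρ →ₐ[F] F, z = y'.comp (Subalgebra.inclusion le_sup_right) := ⟨_, rfl⟩
    have hzPt : Pt W ρ z := by
      intro a ha
      rw [hz]
      have h1 := hy' a (hAB ha)
      rw [hy a ha] at h1
      exact h1
    obtain ⟨c, hc⟩ := pm_scalar W ρ hirr hint z hzPt
    have hcS : c ∈ Sc W ρ := ⟨z, hzPt, hc⟩
    have hc0 : c ≠ 0 := by
      intro h0
      have h1 := pm_isUnit W ρ z
      rw [hc, h0, zero_smul] at h1
      exact not_isUnit_zero h1
    have hinv : ∀ i j, z ⟨fun x => ρ x⁻¹ i j, memρ' W ρ i j⟩ = (c⁻¹ • (1 : Matrix n n F)) i j := by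
      have h1 : ρm W ρ * matA (RR W ρ) (fun x => ρ x⁻¹) (memρ' W ρ) = 1 := by
        ext i j x
        have h1 : ((ρm W ρ * matA (RR W ρ) (fun x => ρ x⁻¹) (memρ' W ρ)) i j : Γ → F) x = (ρ x * ρ x⁻¹) i j := by
          rw [Matrix.mul_apply, Matrix.mul_apply, AddSubmonoidClass.coe_finsetSum, Finset.sum_apply]
          rfl
        rw [h1, ← map_mul, mul_inv_cancel, map_one]
        by_cases hij : i = j
        · subst hij; simp
        · simp [Matrix.one_apply_ne hij]
      have h2 := congrArg (z : RR W ρ →+* F).mapMatrix h1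
      rw [map_mul, map_one] at h2
      have h3 : (z : RR W ρ →+* F).mapMatrix (ρm W ρ) = c • 1 := hc
      rw [h3, smul_mul_assoc, one_mul] at h2
      have h4 : (z : RR W ρ →+* F).mapMatrix (matA (RR W ρ) (fun x => ρ x⁻¹) (memρ' W ρ)) = c⁻¹ • 1 := by
        rw [← h2, smul_smul, inv_mul_cancel₀ hc0, one_smul]
      intro i j
      exact congrFun (congrFun h4 i) j
    have hval : ∀ p q, y ⟨fun x => tens ρ 1 a b 0 x p q, hTB p q⟩ = (1 : Matrix _ _ F) p q := by
      intro p q
      have h1 : (⟨fun x => tens ρ 1 a b 0 x p q, le_sup_left (b := RR W ρ) (hTB p q)⟩ : (B ⊔ RR W ρ : Subalgebra F (Γ → F))) =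
          Subalgebra.inclusion le_sup_right ((∏ s, ρm W ρ (p.1 s) (q.1 s)) *
            ∏ t, (⟨fun x => ρ x⁻¹ (q.2 t) (p.2 t), memρ' W ρ _ _⟩ : RR W ρ)) := by
        apply Subtype.ext
        change (fun x => tens ρ 1 a b 0 x p q) = (((∏ s, ρm W ρ (p.1 s) (q.1 s)) *
            ∏ t, (⟨fun x => ρ x⁻¹ (q.2 t) (p.2 t), memρ' W ρ _ _⟩ : RR W ρ) : RR W ρ) : Γ → F)
        rw [hprod]
        change _ = ((∏ s, ρm W ρ (p.1 s) (q.1 s) : RR W ρ) : Γ → F) *
          ((∏ t, (⟨fun x => ρ x⁻¹ (q.2 t) (p.2 t), memρ' W ρ _ _⟩ : RR W ρ) : RR W ρ) : Γ → F)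
        rw [SubmonoidClass.coe_finsetProd, SubmonoidClass.coe_finsetProd]
        rfl
      rw [← hy' _ (hTB p q), h1]
      change (y'.comp (Subalgebra.inclusion le_sup_right)) _ = _
      rw [← hz, map_mul, map_prod, map_prod]
      have h2 : ∀ i j, z (ρm W ρ i j) = (c • (1 : Matrix n n F)) i j := fun i j => congrFun (congrFun hc i) j
      simp only [h2, hinv]
      by_cases hpq : p = q
      · subst hpq
        simp only [Matrix.smul_apply, Matrix.one_apply_eq, smul_eq_mul, mul_one, Finset.prod_const, Finset.card_univ,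
          Fintype.card_fin]
        have h3 := Sc_pow W ρ hfin c hcS
        have h4 : c ^ a = c ^ b := by
          rcases le_total a b with hle | hle
          · obtain ⟨k, hk⟩ := (Nat.modEq_iff_dvd' hle).mp hab
            have h5 : b = a + (Sc W ρ).ncard * k := by omega
            rw [h5, pow_add, pow_mul, h3, one_pow, mul_one]
          · obtain ⟨k, hk⟩ := (Nat.modEq_iff_dvd' hle).mp hab.symm
            have h5 : a = b + (Sc W ρ).ncard * k := by omega
            rw [h5, pow_add, pow_mul, h3, one_pow, mul_one]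
        rw [h4, ← mul_pow, mul_inv_cancel₀ hc0, one_pow]
      · rw [Matrix.one_apply_ne hpq]
        have h1 : p.1 ≠ q.1 ∨ p.2 ≠ q.2 := by
          by_contra hcon
          push Not at hcon
          exact hpq (Prod.ext hcon.1 hcon.2)
        rcases h1 with h1 | h1
        · obtain ⟨s, hs⟩ := Function.ne_iff.mp h1
          refine mul_eq_zero_of_left (Finset.prod_eq_zero (Finset.mem_univ s) ?_) _
          rw [Matrix.smul_apply, Matrix.one_apply_ne hs, smul_zero]
        · obtain ⟨s, hs⟩ := Function.ne_iff.mp h1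
          refine mul_eq_zero_of_right _ (Finset.prod_eq_zero (Finset.mem_univ s) ?_)
          rw [Matrix.smul_apply, Matrix.one_apply_ne (Ne.symm hs), smul_zero]
    have hone : (Matrix.of fun p q => y ⟨fun x => tens ρ 1 a b 0 x p q, hTB p q⟩) = 1 := by
      ext p q
      exact hval p q
    rw [hone, sub_self]
    exact IsNilpotent.zero

end

end Pool.Agent.H40RT
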