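import Mathlib
import Pool.Agent.H40RT.AlgT

/-!
# Traces which are algebraic over the Frobenius polynomials of another representation: compact groups
-/

set_option autoImplicit false
set_option linter.unusedSectionVars false
set_option linter.style.haveILetI false

namespace Pool.Agent.H40RT

open Module Matrix Pool.Agent.H40GO Pool.Agent.H40LT Topology MeasureTheory

section

variable {F : Type*} [Field F] [TopologicalSpace F] [IsTopologicalRing F] [T2Space F] [IsAlgClosed F] [CharZero F]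
  {Γ : Type*} [Group Γ] [TopologicalSpace Γ] [IsTopologicalGroup Γ] [CompactSpace Γ] [MeasurableSpace Γ]
  [BorelSpace Γ]

theorem geo_of_mem' {n : ℕ} {m : Type*} [Fintype m] [DecidableEq m] (V : Γ →* Matrix m m F)
    (ρ : Γ →* Matrix (Fin n) (Fin n) F) (hirr : Irr ρ)
    (Δ : Subgroup Γ) [Δ.Normal] (hΔo : IsOpen (Δ : Set Γ)) (R : Prop) (hΔt : R → Δ = ⊤)
    (h : ∀ i j, (fun x : Δ => ρ x i j) ∈ coefAlg (V.comp Δ.subtype) 1) :
    ∃ (a b d : ℕ) (θ : Γ →* Matrix (Fin d) (Fin d) F), Continuous θ ∧ (Set.range θ).Finite ∧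
      (R → d = 1 ∧ ∀ x, θ x = 1) ∧ SubQuot (tprod (tens V 1 a b 0) θ) ρ := by
  classical
  by_cases hR : R
  · have hΔ := hΔt hR
    have h1 : ∀ i j, (fun x => ρ x i j) ∈ coefAlg V 1 := by
      intro i j
      obtain ⟨f', hf', h2⟩ := res_surj V Δ _ (h i j)
      have h3 : (fun x => ρ x i j) = f' := by
        funext x
        exact h2 ⟨x, by rw [hΔ]; trivial⟩
      rw [h3]
      exact hf'
    obtain ⟨s, hs⟩ := subQuot_of_mem (ι := ℕ × ℕ) (fun s => ((Fin s.1 → m) × (Fin s.2 → m)) × Fin 1)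
      (fun s => tprod (tens V 1 s.1 s.2 0) (1 : Γ →* Matrix (Fin 1) (Fin 1) F)) ρ hirr (by
        intro i j
        have h2 := coefAlg_le_tensSpan V 1 _ (h1 i j)
        refine Submodule.span_mono ?_ h2
        rintro f ⟨⟨a, b, c⟩, p, q, rfl⟩
        refine ⟨(a, b), (p, 0), (q, 0), ?_⟩
        funext x
        rw [Pool.Agent.H40LT.tprod_apply]
        have h3 : tens V (1 : Γ →* F) a b c x p q = tens V (1 : Γ →* F) a b 0 x p q := by
          simp [tens, _root_.one_zpow]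
        rw [h3]
        change _ = _ * (1 : Matrix (Fin 1) (Fin 1) F) 0 0
        rw [Matrix.one_apply_eq, mul_one])
    refine ⟨s.1, s.2, 1, 1, continuous_const, ?_, fun _ => ⟨rfl, fun _ => rfl⟩, hs⟩
    refine Set.Finite.subset (Set.finite_singleton (1 : Matrix (Fin 1) (Fin 1) F)) ?_
    rintro _ ⟨x, rfl⟩
    rfl
  · haveI : Finite (Γ ⧸ Δ) := Subgroup.quotient_finite_of_isOpen Δ hΔo
    haveI : Fintype (Γ ⧸ Δ) := Fintype.ofFinite _
    haveI : Δ.FiniteIndex := Subgroup.finiteIndex_of_finite_quotient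
    obtain ⟨a, b, hab⟩ := subQuot_of_res (G := F) V ρ hirr Δ (Fintype.equivFin (Γ ⧸ Δ)) (fun i i' => by
      rw [bc_self, bc_self]
      exact h i i')
    exact ⟨a, b, _, permRep F Δ (Fintype.equivFin (Γ ⧸ Δ)), permRep_continuous Δ hΔo _, permRep_finite Δ _,
      fun hR' => absurd hR' hR, hab⟩

/-- the polynomial obtained from `P` at the Frobenius polynomials -/
noncomputable def polyAt {s : ℕ} {N : Fin s → ℕ} (V : ∀ j, Γ →* Matrix (Fin (N j)) (Fin (N j)) F)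
    (P : Polynomial (MvPolynomial (Fin s × ℕ) F)) (x : Γ) : Polynomial F :=
  P.map (MvPolynomial.eval (fun p => (V p.1 x).charpoly.coeff p.2))

theorem polyAt_mem {s n : ℕ} {N : Fin s → ℕ} (V : ∀ j, Γ →* Matrix (Fin (N j)) (Fin (N j)) F)
    (ρ : Γ →* Matrix (Fin n) (Fin n) F) (P : Polynomial (MvPolynomial (Fin s × ℕ) F)) :
    (fun x => (polyAt V P x).eval (ρ x).trace) ∈ coefAlg (dsum (blk V) ρ) 1 := by
  induction P using Polynomial.induction_on' with
  | add p q hp hq =>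
    have h1 : (fun x => (polyAt V (p + q) x).eval (ρ x).trace) =
        (fun x => (polyAt V p x).eval (ρ x).trace) + fun x => (polyAt V q x).eval (ρ x).trace := by
      funext x
      simp [polyAt]
    rw [h1]
    exact Subalgebra.add_mem _ hp hq
  | monomial k a =>
    have h1 : (fun x => (polyAt V (Polynomial.monomial k a) x).eval (ρ x).trace) =
        evc V a * (fun x => (ρ x).trace) ^ k := by
      funext x
      simp [polyAt, evc]
    rw [h1]
    exact Subalgebra.mul_mem _ (coefAlg_le_dsum (blk V) ρ (evc_mem V a))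
      (Subalgebra.pow_mem _ (trace_mem_dsum (blk V) ρ) k)

/-- **Algebraic traces, on a compact group.** -/
theorem alg_main (μ : Measure Γ) [IsFiniteMeasure μ]
    [μ.IsMulLeftInvariant] [μ.InnerRegularCompactLTTop] {s n : ℕ} {N : Fin s → ℕ}
    (V : ∀ j, Γ →* Matrix (Fin (N j)) (Fin (N j)) F) (ρ : Γ →* Matrix (Fin n) (Fin n) F)
    (hV : ∀ j, Continuous (V j)) (hρ : Continuous ρ)
    (hirr : ∀ D : Subgroup Γ, IsOpen (D : Set Γ) → Irr (ρ.comp D.subtype))
    (P : Polynomial (MvPolynomial (Fin s × ℕ) F)) (k : ℕ) (hk : P.natDegree ≤ k)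
    (h : ¬ ∃ Z : Set Γ, IsClosed Z ∧ μ Z = 0 ∧ (∀ x ∈ Z, ∀ τ, τ * x * τ⁻¹ ∈ Z) ∧
      {x | polyAt V P x ≠ 0 ∧ (polyAt V P x).IsRoot (ρ x).trace} ⊆ Z) :
    ∃ e : ℕ, 1 ≤ e ∧ e ≤ k ∧ ∀ a b : ℕ, a ≡ b [MOD e] → ∀ (n' : ℕ) (r : Γ →* Matrix (Fin n') (Fin n') F), Irr r →
      SubQuot (tens ρ 1 a b 0) r →
      ∃ (a b d : ℕ) (θ : Γ →* Matrix (Fin d) (Fin d) F), Continuous θ ∧ (Set.range θ).Finite ∧
        (Rigid (dsum (blk V) ρ) ⊤ → d = 1 ∧ ∀ x, θ x = 1) ∧ SubQuot (tprod (tens (blk V) 1 a b 0) θ) r := by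
  classical
  have hU : Continuous (dsum (blk V) ρ) := cont_dsum (blk V) ρ (blk_cont V hV) hρ
  obtain ⟨Δ, hΔn, hΔo, hΔ, hΔt⟩ := exists_delta (dsum (blk V) ρ) hU
  have hfc : ∀ τ x, (polyAt V P (τ * x * τ⁻¹)).eval (ρ (τ * x * τ⁻¹)).trace = (polyAt V P x).eval (ρ x).trace := by
    intro τ x
    have h1 : polyAt V P (τ * x * τ⁻¹) = polyAt V P x := by
      unfold polyAt
      congr 2
      funext p
      rw [charpoly_conj]
    rw [h1, map_mul, map_mul, Matrix.trace_mul_comm, ← mul_assoc, ← map_mul, inv_mul_cancel, map_one, one_mul]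
  obtain ⟨Z, hZ1, hZ2, hZ3, hZ4⟩ := null_class μ (dsum (blk V) ρ) hU Δ hΔn hΔo hΔ _ (polyAt_mem V ρ P) hfc
  obtain ⟨σ, ⟨hσ0, hσr⟩, hσZ⟩ : ∃ σ, (polyAt V P σ ≠ 0 ∧ (polyAt V P σ).IsRoot (ρ σ).trace) ∧ σ ∉ Z := by
    by_contra hcon
    push Not at hcon
    exact h ⟨Z, hZ1, hZ2, hZ3, fun x hx => hcon x hx⟩
  have hrel : ∀ y ∈ Δ, (polyAt V P (σ * y)).eval (ρ (σ * y)).trace = 0 := hZ4 σ hσr hσZ
  -- the restriction
  obtain ⟨W, hW⟩ : ∃ W : Δ →* Matrix (Σ j, Fin (N j)) (Σ j, Fin (N j)) F, W = (blk V).comp Δ.subtype := ⟨_, rfl⟩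
  obtain ⟨ρ', hρ'⟩ : ∃ ρ' : Δ →* Matrix (Fin n) (Fin n) F, ρ' = ρ.comp Δ.subtype := ⟨_, rfl⟩
  have hirr' : Irr ρ' := by rw [hρ']; exact hirr Δ hΔo
  haveI : Nonempty (Fin n) := hirr'.1
  haveI hdom : IsDomain (RR W ρ') := by
    have h1 := res_domain (dsum (blk V) ρ) Δ hΔ
    have h2 : (dsum (blk V) ρ).comp Δ.subtype = dsum W ρ' := by
      rw [hW, hρ']
      rfl
    rw [h2] at h1
    exact h1
  have hcm : ∀ p : Fin s × ℕ, (fun y : Δ => (V p.1 (σ * y)).charpoly.coeff p.2) ∈ coefAlg W 1 := by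
    intro p
    have h1 : evc V (MvPolynomial.X p) ∈ coefAlg (blk V) 1 := evc_mem V _
    have h2 := res_mem (blk V) Δ _ (((coefAlg_hopf (blk V) 1).comul _ h1).lt_mem σ)
    rw [← hW] at h2
    have h3 : (fun y : Δ => (V p.1 (σ * y)).charpoly.coeff p.2) = fun x : Δ => (lt σ (evc V (MvPolynomial.X p))) x := by
      funext y
      change _ = MvPolynomial.eval _ (MvPolynomial.X p)
      rw [MvPolynomial.eval_X]
    rw [h3]
    exact h2
  obtain ⟨φ, hφ⟩ : ∃ φ : MvPolynomial (Fin s × ℕ) F →+* AA W ρ', φ = ((MvPolynomial.aeval (R := F) fun p =>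
      (⟨⟨_, coefAlg_le_RR W ρ' (hcm p)⟩, hcm p⟩ : AA W ρ') : MvPolynomial (Fin s × ℕ) F →ₐ[F] AA W ρ') :
      MvPolynomial (Fin s × ℕ) F →+* AA W ρ') := ⟨_, rfl⟩
  have hev : ∀ y : Δ, (((ev (RR W ρ') y : RR W ρ' →ₐ[F] F) : RR W ρ' →+* F).comp (algebraMap (AA W ρ') (RR W ρ'))).comp φ =
      MvPolynomial.eval (fun p => (V p.1 (σ * y)).charpoly.coeff p.2) := by
    intro y
    apply MvPolynomial.ringHom_ext
    · intro c
      rw [hφ]
      simp only [RingHom.comp_apply, MvPolynomial.eval_C]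
      change (ev (RR W ρ') y) (((MvPolynomial.aeval _ (MvPolynomial.C c) : AA W ρ') : RR W ρ')) = c
      rw [MvPolynomial.aeval_C]
      rfl
    · intro p
      rw [hφ]
      simp only [RingHom.comp_apply, MvPolynomial.eval_X]
      change (ev (RR W ρ') y) (((MvPolynomial.aeval _ (MvPolynomial.X p) : AA W ρ') : RR W ρ')) = _
      rw [MvPolynomial.aeval_X]
      rfl
  obtain ⟨q, hq⟩ : ∃ q : Polynomial (AA W ρ'), q = P.map φ := ⟨_, rfl⟩
  have hqy : ∀ y : Δ, q.map (((ev (RR W ρ') y : RR W ρ' →ₐ[F] F) : RR W ρ' →+* F).comp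
      (algebraMap (AA W ρ') (RR W ρ'))) = polyAt V P (σ * y) := by
    intro y
    rw [hq, Polynomial.map_map, hev]
    rfl
  have hq0 : q ≠ 0 := by
    intro h0
    apply hσ0
    have h1 := hqy 1
    rw [h0, Polynomial.map_zero, Subgroup.coe_one, mul_one] at h1
    exact h1.symm
  have hqS : Polynomial.aeval (tS W ρ' (ρ σ)) q = 0 := by
    apply Subtype.ext
    funext y
    have h1 := Polynomial.hom_eval₂ q (algebraMap (AA W ρ') (RR W ρ')) ((ev (RR W ρ') y : RR W ρ' →ₐ[F] F) : RR W ρ' →+* F)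
      (tS W ρ' (ρ σ))
    change ((ev (RR W ρ') y : RR W ρ' →ₐ[F] F) : RR W ρ' →+* F) (Polynomial.eval₂ (algebraMap (AA W ρ') (RR W ρ'))
      (tS W ρ' (ρ σ)) q) = 0
    rw [h1, ← Polynomial.eval_map, hqy]
    have h2 : ((ev (RR W ρ') y : RR W ρ' →ₐ[F] F) : RR W ρ' →+* F) (tS W ρ' (ρ σ)) = (ρ (σ * y)).trace := by
      change (tS W ρ' (ρ σ) : Δ → F) y = _
      rw [tS_apply, hρ', map_mul]
      rfl
    rw [h2]
    exact hrel y y.2
  have hS : ρ σ * ρ σ⁻¹ = 1 := by rw [← map_mul, mul_inv_cancel, map_one]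
  have hS0 : tS W ρ' (ρ σ) ≠ 0 := by
    intro h0
    have h1 : ∀ M : Matrix (Fin n) (Fin n) F, (ρ σ * M).trace = 0 := by
      intro M
      have hM := burnside ρ' hirr' M
      induction hM using Submodule.span_induction with
      | mem x hx =>
        obtain ⟨g, rfl⟩ := hx
        have h2 := congrFun (congrArg Subtype.val h0) g
        change (tS W ρ' (ρ σ) : Δ → F) g = 0 at h2
        rwa [tS_apply] at h2
      | zero => rw [mul_zero, Matrix.trace_zero]
      | add x y _ _ hx hy => rw [mul_add, Matrix.trace_add, hx, hy, add_zero]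
      | smul c x _ hx => rw [mul_smul_comm, Matrix.trace_smul, hx, smul_zero]
    have h2 := h1 (ρ σ⁻¹)
    rw [hS, Matrix.trace_one, Fintype.card_fin] at h2
    have h3 : n ≠ 0 := by
      rintro rfl
      exact (inferInstance : Nonempty (Fin 0)).elim fun i => i.elim0
    exact h3 (by exact_mod_cast h2)
  have halg := alg_RR W ρ' hirr' (ρ σ) (ρ σ⁻¹) hS ⟨q, hq0, hqS⟩
  have hint := int_RR W ρ' halg
  obtain ⟨hfin, hcard⟩ := Sc_finite W ρ' (ρ σ) hS0 q hq0 hqS
  refine ⟨(Sc W ρ').ncard, ?_, ?_, ?_⟩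
  · exact (Set.ncard_pos hfin).mpr ⟨1, one_mem_Sc W ρ'⟩
  · refine hcard.trans (le_trans ?_ hk)
    rw [hq]
    exact Polynomial.natDegree_map_le
  · intro a b hab n' r hr hsub
    have h1 := tens_coeff_mem W ρ' hirr' hint hfin a b hab
    refine geo_of_mem' (blk V) r hr Δ hΔo _ hΔt fun i j => ?_
    obtain ⟨c, hc⟩ := hsub.coeff i j
    have h2 : (fun x : Δ => r x i j) = ∑ p, ∑ q, c p q • (fun x : Δ => tens ρ' 1 a b 0 x p q) := by
      funext x
      rw [hc, Finset.sum_apply]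
      refine Finset.sum_congr rfl fun p _ => ?_
      rw [Finset.sum_apply]
      refine Finset.sum_congr rfl fun q _ => ?_
      rw [hρ']
      rfl
    rw [h2, ← hW]
    exact Subalgebra.sum_mem _ fun p _ => Subalgebra.sum_mem _ fun q _ => Subalgebra.smul_mem _ (h1 p q) _

end

end Pool.Agent.H40RT
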