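import Mathlib
import Pool.Agent.H40LT.Unity

/-!
# Multiplicative relations between Weil numbers: the exponents may be taken bounded
-/

set_option autoImplicit false
set_option linter.unusedSectionVars false
set_option linter.style.haveILetI false

namespace Pool.Agent.H40RT

open NumberField IsDedekindDomain Module

section Val

variable {L : Type*} [Field L] [NumberField L]

/-- minus the order of `x` at the prime `𝔓` -/
noncomputable def od (𝔓 : HeightOneSpectrum (𝓞 L)) (x : L) : ℤ := WithZero.log (𝔓.valuation L x)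

theorem val_ne (𝔓 : HeightOneSpectrum (𝓞 L)) {x : L} (hx : x ≠ 0) : 𝔓.valuation L x ≠ 0 :=
  (Valuation.ne_zero_iff _).mpr hx

theorem od_mul (𝔓 : HeightOneSpectrum (𝓞 L)) {x y : L} (hx : x ≠ 0) (hy : y ≠ 0) :
    od 𝔓 (x * y) = od 𝔓 x + od 𝔓 y := by
  unfold od
  rw [map_mul, WithZero.log_mul (val_ne 𝔓 hx) (val_ne 𝔓 hy)]

theorem od_one (𝔓 : HeightOneSpectrum (𝓞 L)) : od 𝔓 1 = 0 := by
  unfold od
  rw [map_one, WithZero.log_one]

theorem od_pow (𝔓 : HeightOneSpectrum (𝓞 L)) (x : L) (n : ℕ) : od 𝔓 (x ^ n) = n * od 𝔓 x := by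
  unfold od
  rw [map_pow, WithZero.log_pow, nsmul_eq_mul]

theorem od_zpow (𝔓 : HeightOneSpectrum (𝓞 L)) (x : L) (n : ℤ) : od 𝔓 (x ^ n) = n * od 𝔓 x := by
  unfold od
  rw [map_zpow₀, WithZero.log_zpow, smul_eq_mul]

theorem od_inv (𝔓 : HeightOneSpectrum (𝓞 L)) (x : L) : od 𝔓 x⁻¹ = - od 𝔓 x := by
  unfold od
  rw [map_inv₀, WithZero.log_inv]

theorem od_prod {ι : Type*} (𝔓 : HeightOneSpectrum (𝓞 L)) (S : Finset ι) (x : ι → L) (hx : ∀ i ∈ S, x i ≠ 0) :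
    od 𝔓 (∏ i ∈ S, x i) = ∑ i ∈ S, od 𝔓 (x i) := by
  classical
  induction S using Finset.induction_on with
  | empty => rw [Finset.prod_empty, Finset.sum_empty, od_one]
  | insert i S hi ih =>
    rw [Finset.prod_insert hi, Finset.sum_insert hi, od_mul 𝔓 (hx i (Finset.mem_insert_self i S))
      (Finset.prod_ne_zero_iff.mpr fun j hj => hx j (Finset.mem_insert_of_mem hj)),
      ih fun j hj => hx j (Finset.mem_insert_of_mem hj)]

theorem od_int (𝔓 : HeightOneSpectrum (𝓞 L)) {x : L} (hx : IsIntegral ℤ x) : od 𝔓 x ≤ 0 := by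
  by_cases hx0 : x = 0
  · unfold od
    rw [hx0, map_zero, WithZero.log_zero]
  · unfold od
    rw [WithZero.log_le_iff_le_exp (val_ne 𝔓 hx0), WithZero.exp_zero]
    exact 𝔓.valuation_le_one (K := L) (⟨x, hx⟩ : 𝓞 L)

theorem int_of_od {x : L} (hx : x ≠ 0) (h : ∀ 𝔓 : HeightOneSpectrum (𝓞 L), od 𝔓 x = 0) : IsIntegral ℤ x := by
  obtain ⟨y, hy⟩ := HeightOneSpectrum.mem_integers_of_valuation_le_one L x (fun 𝔓 => by
    have h1 := h 𝔓
    unfold od at h1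
    have h2 := (WithZero.log_le_iff_le_exp (val_ne 𝔓 hx)).mp h1.le
    rwa [WithZero.exp_zero] at h2)
  rw [← hy]
  exact y.isIntegral_coe

/-- the order of a rational prime is at most the degree -/
theorem od_prime (𝔓 : HeightOneSpectrum (𝓞 L)) (p : ℕ) (hp : p.Prime) : -(finrank ℚ L : ℤ) ≤ od 𝔓 (p : L) := by
  by_contra hcon
  push Not at hcon
  have hp0 : (p : L) ≠ 0 := Nat.cast_ne_zero.mpr hp.ne_zero
  have h1 : od 𝔓 (p : L) ≤ -((finrank ℚ L + 1 : ℕ) : ℤ) := by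
    push_cast
    omega
  unfold od at h1
  rw [WithZero.log_le_iff_le_exp (val_ne 𝔓 hp0)] at h1
  have h2 : (p : L) = algebraMap (𝓞 L) L (p : 𝓞 L) := by rw [map_natCast]
  rw [h2, HeightOneSpectrum.valuation_of_algebraMap, HeightOneSpectrum.intValuation_le_pow_iff_dvd] at h1
  have h3 : Ideal.absNorm (𝔓.asIdeal ^ (finrank ℚ L + 1)) ∣ Ideal.absNorm (Ideal.span {(p : 𝓞 L)}) :=
    map_dvd Ideal.absNorm h1
  rw [map_pow, Ideal.absNorm_span_singleton] at h3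
  have h4 : Algebra.norm ℤ (p : 𝓞 L) = (p : ℤ) ^ finrank ℚ L := by
    have h5 : (p : 𝓞 L) = algebraMap ℤ (𝓞 L) (p : ℤ) := by simp
    rw [h5, Algebra.norm_algebraMap, RingOfIntegers.rank]
  rw [h4, Int.natAbs_pow, Int.natAbs_natCast] at h3
  have h5 : Ideal.absNorm 𝔓.asIdeal ≠ 1 := by
    rw [Ne, Ideal.absNorm_eq_one_iff]
    exact 𝔓.isPrime.ne_top
  have h6 : p ∣ Ideal.absNorm 𝔓.asIdeal := by
    have h7 : Ideal.absNorm 𝔓.asIdeal ∣ p ^ finrank ℚ L := (dvd_pow_self _ (Nat.succ_ne_zero _)).trans h3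
    obtain ⟨j, -, hj⟩ := (Nat.dvd_prime_pow hp).mp h7
    rw [hj] at h5 ⊢
    rcases Nat.eq_zero_or_pos j with hj0 | hj0
    · rw [hj0, pow_zero] at h5
      exact absurd rfl h5
    · exact dvd_pow_self p hj0.ne'
  have h7 : p ^ (finrank ℚ L + 1) ∣ p ^ finrank ℚ L := (pow_dvd_pow_of_dvd h6 _).trans h3
  have h8 := (Nat.pow_dvd_pow_iff_le_right hp.one_lt).mp h7
  omega

theorem od_q (𝔓 : HeightOneSpectrum (𝓞 L)) (D p q : ℕ) (hp : p.Prime) (hq : q ∣ p ^ D) (hq0 : q ≠ 0) :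
    -((D * finrank ℚ L : ℕ) : ℤ) ≤ od 𝔓 (q : L) := by
  obtain ⟨c, hc⟩ := hq
  have hp0 : (p : L) ≠ 0 := Nat.cast_ne_zero.mpr hp.ne_zero
  have hc0 : c ≠ 0 := by
    rintro rfl
    rw [mul_zero] at hc
    exact pow_ne_zero _ hp.ne_zero hc
  have h1 := congrArg (fun m : ℕ => od 𝔓 (m : L)) hc
  simp only [Nat.cast_pow, Nat.cast_mul] at h1
  rw [od_pow, od_mul 𝔓 (Nat.cast_ne_zero.mpr hq0) (Nat.cast_ne_zero.mpr hc0)] at h1
  have h2 : od 𝔓 (c : L) ≤ 0 := od_int 𝔓 (by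
    have : IsIntegral ℤ ((c : ℤ) : L) := isIntegral_algebraMap
    simpa using this)
  have h3 := od_prime 𝔓 p hp
  push_cast
  nlinarith [Int.natCast_nonneg D]

/-- `x` is a Weil number of bounded type with respect to `q` -/
def Weil (C q : ℕ) (x : L) : Prop :=
  x ≠ 0 ∧ (∀ φ : L →+* ℂ, ∃ w : ℤ, |w| ≤ C ∧ ‖φ x‖ ^ 2 = (q : ℝ) ^ w) ∧
    IsIntegral ℤ ((q : L) ^ C * x) ∧ IsIntegral ℤ ((q : L) ^ C * x⁻¹)

theorem od_weil (𝔓 : HeightOneSpectrum (𝓞 L)) (C D p q : ℕ) (hp : p.Prime) (hq : q ∣ p ^ D) (hq0 : q ≠ 0) {x : L}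
    (hx : Weil C q x) : |od 𝔓 x| ≤ ((C * (D * finrank ℚ L) : ℕ) : ℤ) := by
  obtain ⟨hx0, -, h1, h2⟩ := hx
  have hq0' : (q : L) ≠ 0 := Nat.cast_ne_zero.mpr hq0
  have h3 := od_int 𝔓 h1
  have h4 := od_int 𝔓 h2
  rw [od_mul 𝔓 (pow_ne_zero _ hq0') hx0, od_pow] at h3
  rw [od_mul 𝔓 (pow_ne_zero _ hq0') (inv_ne_zero hx0), od_pow, od_inv] at h4
  have h5 := od_q 𝔓 D p q hp hq hq0
  rw [abs_le]
  push_cast at h5 ⊢
  constructor
  · nlinarith [Int.natCast_nonneg C]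
  · nlinarith [Int.natCast_nonneg C]

end Val

/-- bounded solutions of linear systems with bounded coefficients -/
theorem bounded_sol (M k : ℕ) : ∃ B : ℕ, ∀ T : Set (ℤ × (Fin k → ℤ)), (∀ t ∈ T, |t.1| ≤ (M : ℤ) ∧ ∀ j, |t.2 j| ≤ (M : ℤ)) →
    (∃ e : Fin k → ℤ, ∀ t ∈ T, t.1 = ∑ j, e j * t.2 j) →
    ∃ e : Fin k → ℤ, (∀ j, |e j| ≤ B) ∧ ∀ t ∈ T, t.1 = ∑ j, e j * t.2 j := by
  classical
  obtain ⟨X, hX⟩ : ∃ X : Set (ℤ × (Fin k → ℤ)), X = {t | |t.1| ≤ (M : ℤ) ∧ ∀ j, |t.2 j| ≤ (M : ℤ)} := ⟨_, rfl⟩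
  have hXf : X.Finite := by
    have h1 : X ⊆ (Set.Icc (-(M : ℤ)) M) ×ˢ {r : Fin k → ℤ | ∀ j, r j ∈ Set.Icc (-(M : ℤ)) M} := by
      rw [hX]
      rintro ⟨a, r⟩ ⟨h1, h2⟩
      exact ⟨abs_le.mp h1, fun j => abs_le.mp (h2 j)⟩
    refine Set.Finite.subset ((Set.finite_Icc _ _).prod ?_) h1
    exact Set.Finite.pi' fun _ => Set.finite_Icc _ _
  obtain ⟨Y, hY⟩ : ∃ Y : Set (Set (ℤ × (Fin k → ℤ))), Y = {T | T ⊆ X ∧ ∃ e : Fin k → ℤ, ∀ t ∈ T, t.1 = ∑ j, e j * t.2 j} :=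
    ⟨_, rfl⟩
  have hYf : Y.Finite := by
    rw [hY]
    exact hXf.finite_subsets.subset fun T hT => hT.1
  have hch : ∀ T, ∃ e : Fin k → ℤ, T ∈ Y → ∀ t ∈ T, t.1 = ∑ j, e j * t.2 j := by
    intro T
    by_cases hT : T ∈ Y
    · rw [hY] at hT
      obtain ⟨-, e, he⟩ := hT
      exact ⟨e, fun _ => he⟩
    · exact ⟨0, fun h => absurd h hT⟩
  choose e he using hch
  obtain ⟨B, hB⟩ := (hYf.image fun T => ∑ j, (e T j).natAbs).bddAbove
  refine ⟨B, fun T hT hex => ?_⟩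
  have hTY : T ∈ Y := by
    rw [hY]
    exact ⟨fun t ht => by rw [hX]; exact hT t ht, hex⟩
  refine ⟨e T, fun j => ?_, he T hTY⟩
  have h1 : ∑ j, (e T j).natAbs ≤ B := hB ⟨T, hTY, rfl⟩
  have h2 : (e T j).natAbs ≤ ∑ j, (e T j).natAbs :=
    Finset.single_le_sum (f := fun j => (e T j).natAbs) (fun _ _ => Nat.zero_le _) (Finset.mem_univ j)
  rw [Int.abs_eq_natAbs]
  exact_mod_cast h2.trans h1

/-- **Finiteness of Frobenius tori.** If a Weil number `z` is in the group generated by the Weil numbers `x j` and the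
roots of unity, then the exponents may be taken bounded. -/
theorem tori (D C k : ℕ) : ∃ B : ℕ, ∀ (L : Type) [Field L] [NumberField L], finrank ℚ L ≤ D → ∀ p q : ℕ, p.Prime →
    q ∣ p ^ D → 2 ≤ q → ∀ (x : Fin k → L) (z : L), Weil C q z → (∀ i, Weil C q (x i)) →
    ∀ (ζ : L) (m : ℕ), 0 < m → ζ ^ m = 1 → ∀ e : Fin k → ℤ, z = ζ * ∏ j, x j ^ e j →
    ∃ (γ : L) (e' : Fin k → ℤ), (∀ j, |e' j| ≤ B) ∧ (∃ m : ℕ, 0 < m ∧ γ ^ m = 1) ∧ z = γ * ∏ j, x j ^ e' j := by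
  classical
  obtain ⟨B, hB⟩ := bounded_sol (C * (D * D) + C) k
  refine ⟨B, ?_⟩
  intro L _ _ hL p q hp hq hq2 x z hz hx ζ m hm hζ e he
  have hq0 : q ≠ 0 := by omega
  have hqR : (1 : ℝ) < q := by exact_mod_cast hq2
  have hx0 : ∀ i, x i ≠ 0 := fun i => (hx i).1
  have hζ0 : ζ ≠ 0 := by
    rintro rfl
    rw [zero_pow hm.ne'] at hζ
    exact zero_ne_one hζ
  have hodle : ∀ (𝔓 : HeightOneSpectrum (𝓞 L)) (y : L), Weil C q y → |od 𝔓 y| ≤ ((C * (D * D) + C : ℕ) : ℤ) := by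
    intro 𝔓 y hy
    refine (od_weil 𝔓 C D p q hp hq hq0 hy).trans ?_
    have h1 : C * (D * finrank ℚ L) ≤ C * (D * D) + C :=
      (Nat.mul_le_mul_left _ (Nat.mul_le_mul_left _ hL)).trans (Nat.le_add_right _ _)
    exact_mod_cast h1
  -- the weights
  choose wz hwz hwz' using hz.2.1
  choose wx hwx hwx' using fun i => (hx i).2.1
  -- the rows
  obtain ⟨T, hT⟩ : ∃ T : Set (ℤ × (Fin k → ℤ)), T = {t | (∃ 𝔓 : HeightOneSpectrum (𝓞 L), t = (od 𝔓 z, fun j => od 𝔓 (x j))) ∨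
      ∃ φ : L →+* ℂ, t = (wz φ, fun j => wx j φ)} := ⟨_, rfl⟩
  have hTle : ∀ t ∈ T, |t.1| ≤ ((C * (D * D) + C : ℕ) : ℤ) ∧ ∀ j, |t.2 j| ≤ ((C * (D * D) + C : ℕ) : ℤ) := by
    have h1 : ((C : ℕ) : ℤ) ≤ ((C * (D * D) + C : ℕ) : ℤ) := by
      exact_mod_cast Nat.le_add_left _ _
    rw [hT]
    rintro t (⟨𝔓, rfl⟩ | ⟨φ, rfl⟩)
    · exact ⟨hodle 𝔓 z hz, fun j => hodle 𝔓 _ (hx j)⟩
    · exact ⟨(hwz φ).trans h1, fun j => (hwx j φ).trans h1⟩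
  -- the relation and the rows
  have hod : ∀ (𝔓 : HeightOneSpectrum (𝓞 L)) (e : Fin k → ℤ), od 𝔓 (∏ j, x j ^ e j) = ∑ j, e j * od 𝔓 (x j) := by
    intro 𝔓 e
    rw [od_prod 𝔓 _ _ fun j _ => zpow_ne_zero _ (hx0 j)]
    exact Finset.sum_congr rfl fun j _ => od_zpow 𝔓 _ _
  have hnorm : ∀ (φ : L →+* ℂ) (e : Fin k → ℤ), ‖φ (∏ j, x j ^ e j)‖ ^ 2 = (q : ℝ) ^ (∑ j, e j * wx j φ) := by
    intro φ e
    rw [map_prod, norm_prod, ← Finset.prod_pow]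
    have h1 : ∀ j, ‖φ (x j ^ e j)‖ ^ 2 = (q : ℝ) ^ (e j * wx j φ) := by
      intro j
      rw [map_zpow₀, norm_zpow, ← zpow_natCast, ← zpow_mul, mul_comm (e j), zpow_mul, zpow_natCast, hwx', ← zpow_mul,
        mul_comm]
    rw [Finset.prod_congr rfl fun j _ => h1 j]
    have hq0' : (q : ℝ) ≠ 0 := by positivity
    have key : ∀ S : Finset (Fin k), ∏ j ∈ S, (q : ℝ) ^ (e j * wx j φ) = (q : ℝ) ^ (∑ j ∈ S, e j * wx j φ) := by
      intro S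
      induction S using Finset.induction_on with
      | empty => simp
      | insert i S hi ih => rw [Finset.prod_insert hi, Finset.sum_insert hi, zpow_add₀ hq0', ih]
    exact key _
  have hex : ∃ e : Fin k → ℤ, ∀ t ∈ T, t.1 = ∑ j, e j * t.2 j := by
    refine ⟨e, ?_⟩
    rw [hT]
    rintro t (⟨𝔓, rfl⟩ | ⟨φ, rfl⟩)
    · change od 𝔓 z = ∑ j, e j * od 𝔓 (x j)
      rw [he, od_mul 𝔓 hζ0 (Finset.prod_ne_zero_iff.mpr fun j _ => zpow_ne_zero _ (hx0 j)), hod]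
      have h1 : od 𝔓 ζ = 0 := by
        have h2 := od_pow 𝔓 ζ m
        rw [hζ, od_one] at h2
        rcases mul_eq_zero.mp h2.symm with h3 | h3
        · exact absurd (by exact_mod_cast h3) hm.ne'
        · exact h3
      rw [h1, zero_add]
    · change wz φ = ∑ j, e j * wx j φ
      have h1 : ‖φ z‖ ^ 2 = (q : ℝ) ^ (∑ j, e j * wx j φ) := by
        rw [he, map_mul, norm_mul, mul_pow, hnorm]
        have h2 : ‖φ ζ‖ = 1 := by
          have h3 : ‖φ ζ‖ ^ m = 1 := by rw [← norm_pow, ← map_pow, hζ, map_one, norm_one]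
          exact (pow_eq_one_iff_of_nonneg (norm_nonneg _) hm.ne').mp h3
        rw [h2, one_pow, one_mul]
      rw [hwz'] at h1
      exact zpow_right_injective₀ (by linarith) hqR.ne' h1
  obtain ⟨e', he'B, he'⟩ := hB T hTle hex
  have hprod0 : (∏ j, x j ^ e' j) ≠ 0 := Finset.prod_ne_zero_iff.mpr fun j _ => zpow_ne_zero _ (hx0 j)
  refine ⟨z * (∏ j, x j ^ e' j)⁻¹, e', he'B, ?_, by rw [inv_mul_cancel_right₀ hprod0]⟩
  have hγ0 : z * (∏ j, x j ^ e' j)⁻¹ ≠ 0 := mul_ne_zero hz.1 (inv_ne_zero hprod0)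
  have hint : IsIntegral ℤ (z * (∏ j, x j ^ e' j)⁻¹) := by
    refine int_of_od hγ0 fun 𝔓 => ?_
    have h1 := he' (od 𝔓 z, fun j => od 𝔓 (x j)) (by rw [hT]; exact Or.inl ⟨𝔓, rfl⟩)
    change od 𝔓 z = ∑ j, e' j * od 𝔓 (x j) at h1
    rw [od_mul 𝔓 hz.1 (inv_ne_zero hprod0), od_inv, hod, ← h1]
    ring
  obtain ⟨n, hn, hn1⟩ := NumberField.Embeddings.pow_eq_one_of_norm_eq_one L ℂ hint (fun φ => by
    have h1 := he' (wz φ, fun j => wx j φ) (by rw [hT]; exact Or.inr ⟨φ, rfl⟩)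
    change wz φ = ∑ j, e' j * wx j φ at h1
    have h2 : ‖φ (z * (∏ j, x j ^ e' j)⁻¹)‖ ^ 2 = 1 := by
      rw [map_mul, map_inv₀, norm_mul, norm_inv, mul_pow, inv_pow, hnorm, hwz', h1, mul_inv_cancel₀]
      exact (zpow_pos (by linarith) _).ne'
    exact (pow_eq_one_iff_of_nonneg (norm_nonneg _) two_ne_zero).mp h2)
  exact ⟨n, hn, hn1⟩

end Pool.Agent.H40RT
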