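import Mathlib
import Pool.Agent.H40RT.Tori
import Pool.Agent.H40RT.Dens

/-!
# Multiplicative dependence between Frobenius eigenvalues
-/

set_option autoImplicit false
set_option linter.unusedSectionVars false
set_option linter.style.haveILetI false

namespace Pool.Agent.H40RT

open NumberField IsDedekindDomain Filter Module Matrix Pool.Agent.H40GO Pool.Agent.H40LT Topology MeasureTheory
  Pool.Agent.W401.Cheb

section Deg

variable {E Ω : Type*} [Field E] [Field Ω] [Algebra E Ω]

theorem adjoin_deg (d : ℕ) (S : Finset Ω)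
    (h : ∀ z ∈ S, ∃ P : Polynomial E, P ≠ 0 ∧ P.natDegree ≤ d ∧ Polynomial.aeval z P = 0) :
    FiniteDimensional E (IntermediateField.adjoin E (S : Set Ω)) ∧
      finrank E (IntermediateField.adjoin E (S : Set Ω)) ≤ d ^ S.card := by
  classical
  induction S using Finset.induction_on with
  | empty =>
    rw [Finset.coe_empty, IntermediateField.adjoin_empty, Finset.card_empty, pow_zero]
    exact ⟨inferInstance, (IntermediateField.finrank_bot).le⟩
  | insert a S ha ih =>
    obtain ⟨h1, h2⟩ := ih fun z hz => h z (Finset.mem_insert_of_mem hz)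
    obtain ⟨P, hP0, hPd, hPa⟩ := h a (Finset.mem_insert_self a S)
    have hint : IsIntegral E a := IsAlgebraic.isIntegral ⟨P, hP0, hPa⟩
    have h3 : finrank E (IntermediateField.adjoin E {a}) ≤ d := by
      rw [IntermediateField.adjoin.finrank hint]
      exact (Polynomial.natDegree_le_of_dvd (minpoly.dvd E a hPa) hP0).trans hPd
    haveI : FiniteDimensional E (IntermediateField.adjoin E {a}) := IntermediateField.adjoin.finiteDimensional hint
    rw [Finset.coe_insert, Set.insert_eq, IntermediateField.adjoin_union, Finset.card_insert_of_notMem ha, pow_succ']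
    exact ⟨inferInstance, (IntermediateField.finrank_sup_le _ _).trans (Nat.mul_le_mul h3 h2)⟩

end Deg

section Prime

variable {K : Type*} [Field K] [NumberField K]

theorem exists_prime_norm (v : HeightOneSpectrum (𝓞 K)) : ∃ p : ℕ, p.Prime ∧
    Ideal.absNorm v.asIdeal ∣ p ^ finrank ℚ K ∧ 2 ≤ Ideal.absNorm v.asIdeal := by
  haveI : NeZero v.asIdeal := ⟨v.ne_bot⟩
  haveI := v.isPrime
  refine ⟨Ideal.absNorm (Ideal.under ℤ v.asIdeal), Nat.absNorm_under_prime v.asIdeal, ?_, ?_⟩
  · have h1 : ((Ideal.absNorm (Ideal.under ℤ v.asIdeal) : ℤ)) ∈ Ideal.under ℤ v.asIdeal := Ideal.absNorm_mem _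
    rw [Ideal.under_def, Ideal.mem_comap] at h1
    have h2 : Ideal.span {algebraMap ℤ (𝓞 K) (Ideal.absNorm (Ideal.under ℤ v.asIdeal) : ℤ)} ≤ v.asIdeal := by
      rw [Ideal.span_singleton_le_iff_mem]
      exact h1
    have h3 := Ideal.absNorm_dvd_absNorm_of_le h2
    rw [Ideal.absNorm_span_singleton, Algebra.norm_algebraMap, RingOfIntegers.rank, Int.natAbs_pow,
      Int.natAbs_natCast] at h3
    exact h3
  · have h1 : Ideal.absNorm v.asIdeal ≠ 1 := by
      rw [Ne, Ideal.absNorm_eq_one_iff]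
      exact v.isPrime.ne_top
    have h2 : Ideal.absNorm v.asIdeal ≠ 0 := by
      rw [Ne, Ideal.absNorm_eq_zero_iff]
      exact v.ne_bot
    omega

end Prime

section Gen

variable {E : Type} [Field E]

/-- `z` is a Weil number of type `C` with respect to `q` -/
def WeilC (C q : ℕ) (z : AlgebraicClosure E) : Prop :=
  z ≠ 0 ∧ (∀ φ : AlgebraicClosure E →+* ℂ, ∃ w : ℤ, |w| ≤ C ∧ ‖φ z‖ ^ 2 = (q : ℝ) ^ w) ∧
    IsIntegral ℤ ((q : AlgebraicClosure E) ^ C * z) ∧ IsIntegral ℤ ((q : AlgebraicClosure E) ^ C * z⁻¹)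

open scoped Classical in
/-- `z` is the product of a root of unity and of powers of roots of `P` -/
def Gen (P : Polynomial E) (z : AlgebraicClosure E) : Prop :=
  ∃ (ζ : AlgebraicClosure E) (m : ℕ) (e : AlgebraicClosure E → ℤ), 0 < m ∧ ζ ^ m = 1 ∧
    z = ζ * ∏ x ∈ (P.aroots (AlgebraicClosure E)).toFinset, x ^ e x

theorem weil_transfer [NumberField E] (L : IntermediateField E (AlgebraicClosure E)) [NumberField L] (C q : ℕ) (y : L)
    (h : WeilC C q (y : AlgebraicClosure E)) : Weil C q y := by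
  obtain ⟨h1, h2, h3, h4⟩ := h
  have hinj : Function.Injective (algebraMap L (AlgebraicClosure E)) := (algebraMap L (AlgebraicClosure E)).injective
  refine ⟨fun h0 => h1 (by rw [h0]; rfl), fun φ => ?_, ?_, ?_⟩
  · letI : Algebra L ℂ := φ.toAlgebra
    let ψ : AlgebraicClosure E →ₐ[L] ℂ := IsAlgClosed.lift
    obtain ⟨w, hw, hw'⟩ := h2 (ψ : AlgebraicClosure E →+* ℂ)
    refine ⟨w, hw, ?_⟩
    have h5 : (ψ : AlgebraicClosure E →+* ℂ) (y : AlgebraicClosure E) = φ y := ψ.commutes y
    rwa [h5] at hw'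
  · refine (isIntegral_algebraMap_iff hinj).mp ?_
    rw [map_mul, map_pow, map_natCast]
    exact h3
  · refine (isIntegral_algebraMap_iff hinj).mp ?_
    rw [map_mul, map_pow, map_natCast, map_inv₀]
    exact h4

open scoped Classical in
/-- **The exponents may be taken bounded.** -/
theorem gen_bounded (E : Type) [Field E] [NumberField E] (C D' N n : ℕ) : ∃ B : ℕ, ∀ p q : ℕ, p.Prime →
    q ∣ p ^ D' → 2 ≤ q → ∀ P Q : Polynomial E, P ≠ 0 → P.natDegree ≤ N → Q ≠ 0 → Q.natDegree ≤ n →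
    (∀ x ∈ P.aroots (AlgebraicClosure E), WeilC C q x) → ∀ z ∈ Q.aroots (AlgebraicClosure E), WeilC C q z →
    Gen P z → ∃ (γ : AlgebraicClosure E) (e : AlgebraicClosure E → ℤ), (∀ x, |e x| ≤ B) ∧
      (∃ m : ℕ, 0 < m ∧ m ≤ B ∧ γ ^ m = 1) ∧
      z = γ * ∏ x ∈ (P.aroots (AlgebraicClosure E)).toFinset, x ^ e x := by
  obtain ⟨D, hD⟩ : ∃ D, D = finrank ℚ E * (N + n + 1) ^ (N + 1) + D' := ⟨_, rfl⟩
  choose Bk hBk using fun k => tori D C k
  obtain ⟨B, hB⟩ : ∃ B, B = (∑ k ∈ Finset.range (N + 1), Bk k) + expo D := ⟨_, rfl⟩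
  refine ⟨B, ?_⟩
  intro p q hp hq hq2 P Q hP0 hPN hQ0 hQn hPW z hzQ hzW ⟨ζ, m, e, hm, hζ, hz⟩
  obtain ⟨S, hS⟩ : ∃ S : Finset (AlgebraicClosure E), S = (P.aroots (AlgebraicClosure E)).toFinset := ⟨_, rfl⟩
  rw [← hS] at hz ⊢
  have hSR : ∀ x ∈ S, x ∈ P.aroots (AlgebraicClosure E) := by
    intro x hx
    rw [hS, Multiset.mem_toFinset] at hx
    exact hx
  have hSP : ∀ x ∈ S, Polynomial.aeval x P = 0 := fun x hx => (Polynomial.mem_aroots.mp (hSR x hx)).2
  have hScard : S.card ≤ N := by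
    rw [hS]
    refine (Multiset.toFinset_card_le _).trans ((Polynomial.card_roots' _).trans ?_)
    rw [Polynomial.natDegree_map]
    exact hPN
  obtain ⟨L, hL⟩ : ∃ L : IntermediateField E (AlgebraicClosure E),
      L = IntermediateField.adjoin E ((insert z S : Finset (AlgebraicClosure E)) : Set (AlgebraicClosure E)) := ⟨_, rfl⟩
  obtain ⟨hfd, hdeg⟩ := adjoin_deg (E := E) (N + n + 1) (insert z S) (by
    intro y hy
    rcases Finset.mem_insert.mp hy with rfl | hy
    · rw [Polynomial.mem_aroots] at hzQ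
      exact ⟨Q, hQ0, by omega, hzQ.2⟩
    · exact ⟨P, hP0, by omega, hSP y hy⟩)
  rw [← hL] at hfd hdeg
  haveI : NumberField L := by
    haveI : FiniteDimensional ℚ L := FiniteDimensional.trans ℚ E L
    haveI : CharZero L := charZero_of_injective_algebraMap (algebraMap E L).injective
    exact ⟨⟩
  have hLD : finrank ℚ L ≤ D := by
    rw [← Module.finrank_mul_finrank ℚ E L, hD]
    refine (Nat.mul_le_mul_left _ (hdeg.trans (Nat.pow_le_pow_right (Nat.succ_pos _)
      ((Finset.card_insert_le z S).trans (Nat.succ_le_succ hScard))))).trans (Nat.le_add_right _ _)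
  have hzL : z ∈ L := by
    rw [hL]
    exact IntermediateField.subset_adjoin E _ (Finset.mem_coe.mpr (Finset.mem_insert_self z S))
  have hSL : ∀ x ∈ S, x ∈ L := by
    intro x hx
    rw [hL]
    exact IntermediateField.subset_adjoin E _ (Finset.mem_coe.mpr (Finset.mem_insert_of_mem hx))
  -- enumerate the roots
  obtain ⟨k, hk⟩ : ∃ k, k = S.card := ⟨_, rfl⟩
  have heq : S.card = k := hk.symm
  let en : S ≃ Fin k := S.equivFinOfCardEq heq
  have hprod : ∀ e : AlgebraicClosure E → ℤ, ∏ x ∈ S, x ^ e x =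
      ∏ j : Fin k, ((en.symm j : AlgebraicClosure E)) ^ e (en.symm j : AlgebraicClosure E) := by
    intro e
    rw [← Finset.prod_coe_sort S fun x => x ^ e x]
    exact (Equiv.prod_comp en.symm fun x : S => (x : AlgebraicClosure E) ^ e (x : AlgebraicClosure E)).symm
  obtain ⟨x, hx⟩ : ∃ x : Fin k → L, ∀ j, (x j : AlgebraicClosure E) = (en.symm j : AlgebraicClosure E) :=
    ⟨fun j => ⟨(en.symm j : AlgebraicClosure E), hSL _ (en.symm j).2⟩, fun j => rfl⟩
  have hz0 : z ≠ 0 := hzW.1
  have hprodne : ∏ x ∈ S, x ^ e x ≠ 0 := by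
    intro h0
    rw [h0, mul_zero] at hz
    exact hz0 hz
  have hζL : ζ ∈ L := by
    have h1 : ζ = z * (∏ x ∈ S, x ^ e x)⁻¹ := by
      rw [hz, mul_inv_cancel_right₀ hprodne]
    rw [h1]
    exact L.mul_mem hzL (L.inv_mem (L.prod_mem fun y hy => zpow_mem (hSL y hy) _))
  have hDdvd : q ∣ p ^ D := hq.trans (pow_dvd_pow _ (by rw [hD]; exact Nat.le_add_left _ _))
  have hcoe : ∀ (y : L) (e' : Fin k → ℤ), ((y * ∏ j, x j ^ e' j : L) : AlgebraicClosure E) =
      (y : AlgebraicClosure E) * ∏ j, (en.symm j : AlgebraicClosure E) ^ e' j := by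
    intro y e'
    have h1 := map_mul (algebraMap L (AlgebraicClosure E)) y (∏ j, x j ^ e' j)
    rw [map_prod] at h1
    refine h1.trans ?_
    congr 1
    refine Finset.prod_congr rfl fun j _ => ?_
    rw [map_zpow₀]
    congr 1
    exact hx j
  have hinj : Function.Injective (algebraMap L (AlgebraicClosure E)) := (algebraMap L (AlgebraicClosure E)).injective
  obtain ⟨γ, e', he', ⟨m', hm', hγ⟩, hzγ⟩ := hBk k L hLD p q hp hDdvd hq2 x ⟨z, hzL⟩
    (weil_transfer L C q _ hzW) (fun i => weil_transfer L C q _ (by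
      rw [hx i]
      exact hPW _ (hSR _ (en.symm i).2))) ⟨ζ, hζL⟩ m hm (by
        apply hinj
        rw [map_pow, map_one]
        exact hζ) (fun j => e (en.symm j : AlgebraicClosure E)) (by
        apply hinj
        refine Eq.trans ?_ (hcoe ⟨ζ, hζL⟩ _).symm
        change z = ζ * _
        rw [← hprod e]
        exact hz)
  have hBkB : Bk k ≤ B := by
    rw [hB]
    refine (Finset.single_le_sum (f := Bk) (fun _ _ => Nat.zero_le _) ?_).trans (Nat.le_add_right _ _)
    rw [Finset.mem_range, hk]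
    omega
  refine ⟨(γ : AlgebraicClosure E), fun y => if hy : y ∈ S then e' (en ⟨y, hy⟩) else 0, fun y => ?_, ?_, ?_⟩
  · change |if hy : y ∈ S then e' (en ⟨y, hy⟩) else 0| ≤ (B : ℤ)
    split_ifs with hy
    · exact (he' _).trans (by exact_mod_cast hBkB)
    · rw [abs_zero]
      exact Int.natCast_nonneg _
  · refine ⟨expo D, Nat.pos_of_ne_zero (expo_ne_zero D), by rw [hB]; exact Nat.le_add_left _ _, ?_⟩
    have hint : IsIntegral ℚ γ := Algebra.IsIntegral.isIntegral γ
    have h1 := pow_expo (G := L) (minpoly ℚ γ) (minpoly.ne_zero hint) D ((minpoly.natDegree_le γ).trans hLD) γ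
      (minpoly.aeval ℚ γ) m' hm' hγ
    have h2 := congrArg (algebraMap L (AlgebraicClosure E)) h1
    rw [map_pow, map_one] at h2
    exact h2
  · rw [hprod]
    have h1 := congrArg (algebraMap L (AlgebraicClosure E)) hzγ
    refine (h1.trans (hcoe γ e')).trans ?_
    congr 1
    refine Finset.prod_congr rfl fun j _ => ?_
    congr 1
    have h2 : (en.symm j : AlgebraicClosure E) ∈ S := (en.symm j).2
    change e' j = if hy : (en.symm j : AlgebraicClosure E) ∈ S then e' (en ⟨(en.symm j : AlgebraicClosure E), hy⟩) else 0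
    rw [dif_pos h2]
    congr 1
    have h3 : (⟨(en.symm j : AlgebraicClosure E), h2⟩ : S) = en.symm j := rfl
    rw [h3, Equiv.apply_symm_apply]

end Gen

end Pool.Agent.H40RT
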