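import Mathlib
import Pool.Agent.H40RT.Mult

/-!
# Multiplicative dependence between Frobenius eigenvalues: the main theorem
-/

set_option autoImplicit false
set_option linter.unusedSectionVars false
set_option linter.style.haveILetI false

namespace Pool.Agent.H40RT

open NumberField IsDedekindDomain Filter Module Matrix Pool.Agent.H40GO Pool.Agent.H40LT Topology MeasureTheory
  Pool.Agent.W401.Cheb

section Mon

variable {F : Type*} [Field F]

/-- `w` is a monomial of degree at most `c` in the elements of `R` -/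
def MonB (R : Set F) (c : ℕ) (w : F) : Prop :=
  ∃ A B : Multiset F, A.card ≤ c ∧ B.card ≤ c ∧ (∀ x ∈ A, x ∈ R) ∧ (∀ x ∈ B, x ∈ R) ∧ w * B.prod = A.prod

theorem MonB.one (R : Set F) : MonB R 0 (1 : F) := ⟨0, 0, by simp⟩

theorem MonB.mul {R : Set F} {c c' : ℕ} {w w' : F} (h : MonB R c w) (h' : MonB R c' w') : MonB R (c + c') (w * w') := by
  obtain ⟨A, B, h1, h2, h3, h4, h5⟩ := h
  obtain ⟨A', B', h1', h2', h3', h4', h5'⟩ := h'
  refine ⟨A + A', B + B', ?_, ?_, ?_, ?_, ?_⟩
  · rw [Multiset.card_add]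
    omega
  · rw [Multiset.card_add]
    omega
  · intro x hx
    rcases Multiset.mem_add.mp hx with hx | hx
    · exact h3 x hx
    · exact h3' x hx
  · intro x hx
    rcases Multiset.mem_add.mp hx with hx | hx
    · exact h4 x hx
    · exact h4' x hx
  · rw [Multiset.prod_add, Multiset.prod_add, ← h5, ← h5']
    ring

theorem MonB.mono {R : Set F} {c c' : ℕ} {w : F} (h : MonB R c w) (hc : c ≤ c') : MonB R c' w := by
  obtain ⟨A, B, h1, h2, h3, h4, h5⟩ := h
  exact ⟨A, B, h1.trans hc, h2.trans hc, h3, h4, h5⟩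

theorem MonB.zpow {R : Set F} {x : F} (hx : x ∈ R) (hx0 : x ≠ 0) (e : ℤ) (c : ℕ) (he : |e| ≤ c) : MonB R c (x ^ e) := by
  rcases Int.le_total 0 e with h | h
  · obtain ⟨n, rfl⟩ := Int.eq_ofNat_of_zero_le h
    refine ⟨Multiset.replicate n x, 0, ?_, ?_, ?_, ?_, ?_⟩
    · rw [Multiset.card_replicate]
      rw [abs_of_nonneg h] at he
      exact_mod_cast he
    · simp
    · intro y hy
      rw [Multiset.eq_of_mem_replicate hy]
      exact hx
    · intro y hy
      exact absurd hy (Multiset.notMem_zero _)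
    · rw [Multiset.prod_zero, mul_one, Multiset.prod_replicate]
      exact zpow_natCast x n
  · obtain ⟨n, hn⟩ := Int.eq_ofNat_of_zero_le (neg_nonneg.mpr h)
    have he' : e = -(n : ℤ) := by omega
    refine ⟨0, Multiset.replicate n x, ?_, ?_, ?_, ?_, ?_⟩
    · simp
    · rw [Multiset.card_replicate]
      rw [he', abs_neg, abs_of_nonneg (Int.natCast_nonneg n)] at he
      exact_mod_cast he
    · intro y hy
      exact absurd hy (Multiset.notMem_zero _)
    · intro y hy
      rw [Multiset.eq_of_mem_replicate hy]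
      exact hx
    · rw [Multiset.prod_zero, Multiset.prod_replicate, he', _root_.zpow_neg, zpow_natCast, inv_mul_cancel₀ (pow_ne_zero _ hx0)]

theorem MonB.prod {R : Set F} {ι : Type*} (S : Finset ι) (x : ι → F) (hx : ∀ i ∈ S, x i ∈ R ∧ x i ≠ 0) (e : ι → ℤ)
    (c : ℕ) (he : ∀ i, |e i| ≤ c) : MonB R (S.card * c) (∏ i ∈ S, x i ^ e i) := by
  classical
  induction S using Finset.induction_on with
  | empty =>
    rw [Finset.prod_empty, Finset.card_empty, Nat.zero_mul]
    exact MonB.one R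
  | insert i S hi ih =>
    rw [Finset.prod_insert hi, Finset.card_insert_of_notMem hi, add_mul, one_mul, add_comm]
    exact (MonB.zpow (hx i (Finset.mem_insert_self i S)).1 (hx i (Finset.mem_insert_self i S)).2 _ c (he i)).mul
      (ih fun j hj => hx j (Finset.mem_insert_of_mem hj))

theorem enum (A : Multiset F) : ∃ al : Fin A.card → F, (∀ s, al s ∈ A) ∧ ∏ s, al s = A.prod := by
  obtain ⟨l, rfl⟩ := Quot.exists_rep A
  refine ⟨fun s => l.get (s.cast (by rfl)), fun s => ?_, ?_⟩
  · exact List.get_mem _ _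
  · change ∏ s : Fin l.length, l.get s = l.prod
    rw [← List.prod_ofFn, List.ofFn_get]

end Mon

section

variable {E : Type} [Field E] [NumberField E] {F : Type*} [Field F] [IsAlgClosed F] [CharZero F] {Γ : Type*} [Group Γ]
  {N n : ℕ}

theorem exists_ext (ι : E →+* F) : ∃ j : AlgebraicClosure E →+* F, ∀ x, j (algebraMap E (AlgebraicClosure E) x) = ι x := by
  letI : Algebra E F := ι.toAlgebra
  let ψ : AlgebraicClosure E →ₐ[E] F := IsAlgClosed.lift
  exact ⟨ψ, fun x => ψ.commutes x⟩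

theorem roots_ext (ι : E →+* F) (j : AlgebraicClosure E →+* F)
    (hj : ∀ x, j (algebraMap E (AlgebraicClosure E) x) = ι x) (P : Polynomial E) :
    (P.map ι).roots = (P.aroots (AlgebraicClosure E)).map j := by
  have h1 : P.map ι = (P.map (algebraMap E (AlgebraicClosure E))).map j := by
    rw [Polynomial.map_map]
    congr 1
    ext x
    exact (hj x).symm
  rw [h1]
  exact (Polynomial.Splits.roots_map (IsAlgClosed.splits _) j)

open scoped Classical in
theorem gen_of_good (ι : E →+* F) (j : AlgebraicClosure E →+* F)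
    (hj : ∀ x, j (algebraMap E (AlgebraicClosure E) x) = ι x) (P : Polynomial E)
    (V : Γ →* Matrix (Fin N) (Fin N) F) (σ : Γ) (hP : (V σ).charpoly = P.map ι)
    (h0 : ∀ x ∈ P.aroots (AlgebraicClosure E), x ≠ 0) (B : ℕ) (z : AlgebraicClosure E)
    (h : Good V B σ (j z)) : Gen P z := by
  obtain ⟨ζ, w, ⟨d, hd, -, hζ⟩, hz, hw⟩ := h
  rw [bigPoly_root] at hw
  obtain ⟨a, -, b, -, al, be, hal, hbe, hab⟩ := hw
  have hroot : ∀ y : F, (V σ).charpoly.IsRoot y → ∃ x ∈ P.aroots (AlgebraicClosure E), j x = y := by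
    intro y hy
    have h1 : y ∈ (V σ).charpoly.roots := by
      rw [Polynomial.mem_roots (Matrix.charpoly_monic _).ne_zero]
      exact hy
    rw [hP, roots_ext ι j hj, Multiset.mem_map] at h1
    exact h1
  choose al' hal' hal'' using fun s => hroot (al s) (hal s)
  choose be' hbe' hbe'' using fun s => hroot (be s) (hbe s)
  have hbe0 : ∏ t, be' t ≠ 0 := Finset.prod_ne_zero_iff.mpr fun t _ => h0 _ (hbe' t)
  have hal0 : ∏ t, al' t ≠ 0 := Finset.prod_ne_zero_iff.mpr fun t _ => h0 _ (hal' t)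
  have hjal : j (∏ t, al' t) = ∏ t, al t := by
    rw [map_prod]
    exact Finset.prod_congr rfl fun t _ => hal'' t
  have hjbe : j (∏ t, be' t) = ∏ t, be t := by
    rw [map_prod]
    exact Finset.prod_congr rfl fun t _ => hbe'' t
  have key : ∀ (a : ℕ) (f : Fin a → AlgebraicClosure E), (∀ s, f s ∈ P.aroots (AlgebraicClosure E)) →
      ∏ s, f s = ∏ x ∈ (P.aroots (AlgebraicClosure E)).toFinset,
        x ^ (((Finset.univ.filter fun s => f s = x).card : ℕ) : ℤ) := by
    intro a f hf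
    rw [← Finset.prod_fiberwise_of_maps_to (s := Finset.univ) (t := (P.aroots (AlgebraicClosure E)).toFinset) (g := f)
      (fun s _ => Multiset.mem_toFinset.mpr (hf s))]
    refine Finset.prod_congr rfl fun x _ => ?_
    rw [zpow_natCast, ← Finset.prod_const]
    refine Finset.prod_congr rfl fun s hs => ?_
    exact (Finset.mem_filter.mp hs).2
  refine ⟨z * (∏ t, be' t) * (∏ s, al' s)⁻¹, d, fun x => (((Finset.univ.filter fun s => al' s = x).card : ℕ) : ℤ) -
    (((Finset.univ.filter fun s => be' s = x).card : ℕ) : ℤ), hd, ?_, ?_⟩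
  · apply j.injective
    rw [map_pow, map_mul, map_mul, map_inv₀, hjal, hjbe, map_one, hz, mul_assoc ζ w, hab, mul_assoc,
      mul_inv_cancel₀, mul_one, hζ]
    rw [← hjal]
    exact (map_ne_zero j).mpr hal0
  · have h1 : ∏ x ∈ (P.aroots (AlgebraicClosure E)).toFinset,
        x ^ ((((Finset.univ.filter fun s => al' s = x).card : ℕ) : ℤ) -
          (((Finset.univ.filter fun s => be' s = x).card : ℕ) : ℤ)) = (∏ s, al' s) * (∏ t, be' t)⁻¹ := by
      rw [key _ al' hal', key _ be' hbe', ← Finset.prod_inv_distrib, ← Finset.prod_mul_distrib]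
      refine Finset.prod_congr rfl fun x hx => ?_
      rw [zpow_sub₀ (h0 x (Multiset.mem_toFinset.mp hx)), div_eq_mul_inv]
    rw [h1]
    field_simp

open scoped Classical in
theorem good_of_gen (ι : E →+* F) (j : AlgebraicClosure E →+* F)
    (hj : ∀ x, j (algebraMap E (AlgebraicClosure E) x) = ι x) (P : Polynomial E)
    (V : Γ →* Matrix (Fin N) (Fin N) F) (σ : Γ) (hP : (V σ).charpoly = P.map ι)
    (h0 : ∀ x ∈ P.aroots (AlgebraicClosure E), x ≠ 0) (B : ℕ) (z γ : AlgebraicClosure E)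
    (e : AlgebraicClosure E → ℤ) (he : ∀ x, |e x| ≤ B) (hγ : ∃ m : ℕ, 0 < m ∧ m ≤ B ∧ γ ^ m = 1)
    (hz : z = γ * ∏ x ∈ (P.aroots (AlgebraicClosure E)).toFinset, x ^ e x) : Good V ((N + 1) * B) σ (j z) := by
  obtain ⟨m, hm0, hmB, hm⟩ := hγ
  refine ⟨j γ, j (∏ x ∈ (P.aroots (AlgebraicClosure E)).toFinset, x ^ e x), ⟨m, hm0, ?_, ?_⟩, ?_, ?_⟩
  · exact hmB.trans (Nat.le_mul_of_pos_left _ (Nat.succ_pos _))
  · rw [← map_pow, hm, map_one]
  · rw [hz, map_mul]
  · have hroot : ∀ x ∈ P.aroots (AlgebraicClosure E), (V σ).charpoly.IsRoot (j x) := by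
      intro x hx
      rw [← Polynomial.mem_roots (Matrix.charpoly_monic _).ne_zero, hP, roots_ext ι j hj, Multiset.mem_map]
      exact ⟨x, hx, rfl⟩
    have h1 : MonB {y | (V σ).charpoly.IsRoot y} ((P.aroots (AlgebraicClosure E)).toFinset.card * B)
        (∏ x ∈ (P.aroots (AlgebraicClosure E)).toFinset, (j x) ^ e x) :=
      MonB.prod _ _ (fun x hx => ⟨hroot x (Multiset.mem_toFinset.mp hx),
        (map_ne_zero j).mpr (h0 x (Multiset.mem_toFinset.mp hx))⟩) e B he
    have hcard : (P.aroots (AlgebraicClosure E)).toFinset.card ≤ N + 1 := by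
      refine (Multiset.toFinset_card_le _).trans ((Polynomial.card_roots' _).trans ?_)
      rw [Polynomial.natDegree_map, ← Polynomial.natDegree_map ι, ← hP, Matrix.charpoly_natDegree_eq_dim,
        Fintype.card_fin]
      exact Nat.le_succ _
    obtain ⟨A, A', hA, hA', hAr, hAr', hw⟩ := h1.mono (Nat.mul_le_mul_right B hcard)
    rw [bigPoly_root]
    obtain ⟨al, hal, hal'⟩ := enum A
    obtain ⟨be, hbe, hbe'⟩ := enum A'
    refine ⟨_, hA, _, hA', al, be, fun s => hAr _ (hal s), fun s => hAr' _ (hbe s), ?_⟩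
    rw [hal', hbe', ← hw]
    congr 1
    rw [map_prod]
    exact Finset.prod_congr rfl fun x _ => map_zpow₀ j _ _

end

section Main

variable {K : Type} [Field K] [NumberField K] {E : Type} [Field E] [NumberField E]
  {F : Type*} [Field F] [TopologicalSpace F] [IsTopologicalRing F] [T2Space F] [IsAlgClosed F] [CharZero F]

open scoped Classical in
/-- **The criterion of multiplicative dependence.** -/
theorem mult_iff (C : ℕ) (P Q : HeightOneSpectrum (𝓞 K) → Polynomial E)
    (hPW : {v : HeightOneSpectrum (𝓞 K) | ¬ ∀ x ∈ (P v).aroots (AlgebraicClosure E),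
      WeilC C (Ideal.absNorm v.asIdeal) x}.Finite)
    (hQW : {v : HeightOneSpectrum (𝓞 K) | ¬ ∀ x ∈ (Q v).aroots (AlgebraicClosure E),
      WeilC C (Ideal.absNorm v.asIdeal) x}.Finite)
    (ι : E →+* F) (N n : ℕ) (V : GK K →* Matrix (Fin N) (Fin N) F) (ρ : GK K →* Matrix (Fin n) (Fin n) F)
    (hV : Continuous V) (hρ : Continuous ρ) (hP : FrobPoly P ι V) (hQ : FrobPoly Q ι ρ) (hirr : Irr ρ) :
    ∃ U : Subgroup (GK K), U.Normal ∧ IsOpen (U : Set (GK K)) ∧ (Rigid (dsum V ρ) ⊤ → U = ⊤) ∧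
      (Geo V ρ ↔ ¬ DensZero {v : HeightOneSpectrum (𝓞 K) | ∃ σ ∈ U, IsFrob v σ ∧
        n < 3 * Multiset.card (((Q v).aroots (AlgebraicClosure E)).filter (Gen (P v)))}) := by
  have hbc : ∀ {m : ℕ} (W : GK K →* Matrix (Fin m) (Fin m) F), bc F W = W := by
    intro m W
    ext x i j
    rfl
  have hbcd : bc F (dsum V ρ) = dsum V ρ := by
    ext x i j
    rfl
  obtain ⟨U, hU1, hU2, hU3, hU4⟩ := third_iff (G := F) continuous_id N n V ρ hV hρ hirr
  simp only [hbc, hbcd] at hU3 hU4
  refine ⟨U, hU1, hU2, hU3, ?_⟩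
  obtain ⟨j, hj⟩ := exists_ext ι
  have hfin := ((hP.union hQ).union (hPW.union hQW))
  constructor
  · intro hgeo hd
    obtain ⟨B, hB⟩ := hU4.mp hgeo
    apply hB
    refine (DensZero.union_finite hd hfin).mono ?_
    rintro v ⟨σ, hσ, hv, hlt⟩
    by_cases hgood : (∀ σ : GK K, IsFrob v σ → (V σ).charpoly = (P v).map ι) ∧
        (∀ σ : GK K, IsFrob v σ → (ρ σ).charpoly = (Q v).map ι) ∧
        (∀ x ∈ (P v).aroots (AlgebraicClosure E), WeilC C (Ideal.absNorm v.asIdeal) x) ∧
        (∀ x ∈ (Q v).aroots (AlgebraicClosure E), WeilC C (Ideal.absNorm v.asIdeal) x)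
    · obtain ⟨h1, h2, h3, h4⟩ := hgood
      left
      refine ⟨σ, hσ, hv, lt_of_lt_of_le hlt (Nat.mul_le_mul_left _ ?_)⟩
      rw [h2 σ hv, roots_ext ι j hj, Multiset.filter_map, Multiset.card_map]
      refine Multiset.card_le_card (Multiset.monotone_filter_right _ ?_)
      intro z hz
      exact gen_of_good ι j hj (P v) V σ (h1 σ hv) (fun x hx => (h3 x hx).1) B z hz
    · right
      by_contra hcon
      apply hgood
      simp only [Set.mem_union, Set.mem_ofPred_eq, not_or, not_not] at hcon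
      exact ⟨hcon.1.1, hcon.1.2, hcon.2.1, hcon.2.2⟩
  · intro hd
    obtain ⟨B, hB⟩ := gen_bounded E C (finrank ℚ K) N n
    refine hU4.mpr ⟨(N + 1) * B, fun hcon => hd ((DensZero.union_finite hcon hfin).mono ?_)⟩
    rintro v ⟨σ, hσ, hv, hlt⟩
    by_cases hgood : (∀ σ : GK K, IsFrob v σ → (V σ).charpoly = (P v).map ι) ∧
        (∀ σ : GK K, IsFrob v σ → (ρ σ).charpoly = (Q v).map ι) ∧
        (∀ x ∈ (P v).aroots (AlgebraicClosure E), WeilC C (Ideal.absNorm v.asIdeal) x) ∧
        (∀ x ∈ (Q v).aroots (AlgebraicClosure E), WeilC C (Ideal.absNorm v.asIdeal) x)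
    · obtain ⟨h1, h2, h3, h4⟩ := hgood
      left
      refine ⟨σ, hσ, hv, lt_of_lt_of_le hlt (Nat.mul_le_mul_left _ ?_)⟩
      rw [h2 σ hv, roots_ext ι j hj, Multiset.filter_map, Multiset.card_map]
      obtain ⟨p, hp, hdvd, hq2⟩ := exists_prime_norm v
      have hne : ∀ {m : ℕ} (W : GK K →* Matrix (Fin m) (Fin m) F) (R : Polynomial E),
          (W σ).charpoly = R.map ι → R ≠ 0 ∧ R.natDegree ≤ m := by
        intro m W R hR
        constructor
        · rintro rfl
          rw [Polynomial.map_zero] at hR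
          exact (Matrix.charpoly_monic (W σ)).ne_zero hR
        · rw [← Polynomial.natDegree_map ι, ← hR, Matrix.charpoly_natDegree_eq_dim, Fintype.card_fin]
      have hle : ((Q v).aroots (AlgebraicClosure E)).filter (Gen (P v)) ≤
          ((Q v).aroots (AlgebraicClosure E)).filter (Good V ((N + 1) * B) σ ∘ j) := by
        rw [Multiset.le_filter]
        refine ⟨Multiset.filter_le _ _, fun z hz => ?_⟩
        rw [Multiset.mem_filter] at hz
        obtain ⟨γ, e, he, hγ, hzγ⟩ := hB p _ hp hdvd hq2 (P v) (Q v) (hne V _ (h1 σ hv)).1 (hne V _ (h1 σ hv)).2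
          (hne ρ _ (h2 σ hv)).1 (hne ρ _ (h2 σ hv)).2 h3 z hz.1 (h4 z hz.1) hz.2
        exact good_of_gen ι j hj (P v) V σ (h1 σ hv) (fun x hx => (h3 x hx).1) B z γ e he hγ hzγ
      exact Multiset.card_le_card hle
    · right
      by_contra hcon
      apply hgood
      simp only [Set.mem_union, Set.mem_ofPred_eq, not_or, not_not] at hcon
      exact ⟨hcon.1.1, hcon.1.2, hcon.2.1, hcon.2.2⟩

end Main

end Pool.Agent.H40RT
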