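import Mathlib
import Pool.Agent.H40RT.Mult2

/-!
# Multiplicative dependence between Frobenius eigenvalues: the dichotomy
-/

set_option autoImplicit false
set_option linter.unusedSectionVars false
set_option linter.style.haveILetI false

namespace Pool.Agent.H40RT

open NumberField IsDedekindDomain Filter Module Matrix Pool.Agent.H40GO Pool.Agent.H40LT Topology MeasureTheory
  Pool.Agent.W401.Cheb

section

variable {F : Type*} [Field F] [TopologicalSpace F] [IsTopologicalRing F] [T2Space F] [IsAlgClosed F] [CharZero F]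
  {Γ : Type*} [Group Γ] [TopologicalSpace Γ] [IsTopologicalGroup Γ] {N n : ℕ}

theorem geo2_of_geo [CompactSpace Γ] [MeasurableSpace Γ] [BorelSpace Γ] (V : Γ →* Matrix (Fin N) (Fin N) F)
    (ρ : Γ →* Matrix (Fin n) (Fin n) F) (hirr : Irr ρ) (h : Geo V ρ) : Geo2 V ρ := by
  classical
  by_cases hR : Rigid (dsum V ρ) ⊤
  · obtain ⟨a, b, d, θ, hθc, hθf, hsub⟩ := h
    refine geo2_of_mem V ρ hirr ⊤ isOpen_univ (fun _ => rfl) ?_
    have hker : IsOpen ((θ.ker : Subgroup Γ) : Set Γ) := by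
      have h1 : ((θ.ker : Subgroup Γ) : Set Γ) = (θ ⁻¹' (Set.range θ \ {1}))ᶜ := by
        ext x
        simp [MonoidHom.mem_ker]
      rw [h1, isOpen_compl_iff]
      exact (hθf.subset Set.sdiff_subset).isClosed.preimage hθc
    intro i j
    obtain ⟨c, hc⟩ := hsub.coeff i j
    obtain ⟨g, hg⟩ : ∃ g : Γ → F, g = ∑ p, ∑ q, (c p q * (1 : Matrix (Fin d) (Fin d) F) p.2 q.2) •
        (fun x => tens V (1 : Γ →* F) a b 0 x p.1 q.1) := ⟨_, rfl⟩
    have hgm : g ∈ coefAlg V 1 := by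
      rw [hg]
      refine Subalgebra.sum_mem _ fun p _ => Subalgebra.sum_mem _ fun q _ => Subalgebra.smul_mem _ ?_ _
      have h1 : (fun x => tens V (1 : Γ →* F) a b 0 x p.1 q.1) =
          (∏ s, fun x => V x (p.1.1 s) (q.1.1 s)) * (∏ t, fun x => V x⁻¹ (q.1.2 t) (p.1.2 t)) := by
        funext x
        rw [Pi.mul_apply, Finset.prod_apply, Finset.prod_apply]
        simp [tens]
      rw [h1]
      exact Subalgebra.mul_mem _ (Subalgebra.prod_mem _ fun s _ => mem1 V 1 _ _)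
        (Subalgebra.prod_mem _ fun t _ => mem2 V 1 _ _)
    have hρm : (fun x => ρ x i j) ∈ coefAlg (dsum V ρ) 1 := memρ V ρ i j
    have hdiff := hR.mem θ.ker hker le_top ((fun x => ρ x i j) - g)
      (Subalgebra.sub_mem _ hρm (coefAlg_le_dsum V ρ hgm)) (by
        intro x hx
        rw [Pi.sub_apply, sub_eq_zero, hc x, hg, Finset.sum_apply]
        refine Finset.sum_congr rfl fun p _ => ?_
        rw [Finset.sum_apply]
        refine Finset.sum_congr rfl fun q _ => ?_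
        rw [Pool.Agent.H40LT.tprod_apply, MonoidHom.mem_ker.mp hx, Pi.smul_apply, smul_eq_mul]
        ring)
    have he : (fun x => ρ x i j) = g := by
      funext x
      exact sub_eq_zero.mp (hdiff x trivial)
    have h2 : (fun x : (⊤ : Subgroup Γ) => ρ x i j) = fun x : (⊤ : Subgroup Γ) => g x := by
      funext x
      exact congrFun he x
    rw [h2]
    exact res_mem V ⊤ g hgm
  · obtain ⟨a, b, d, θ, hθc, hθf, hsub⟩ := h
    exact ⟨a, b, d, θ, hθc, hθf, fun h' => absurd h' hR, hsub⟩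

theorem Geo2.geo {V : Γ →* Matrix (Fin N) (Fin N) F} {ρ : Γ →* Matrix (Fin n) (Fin n) F} (h : Geo2 V ρ) : Geo V ρ := by
  obtain ⟨a, b, d, θ, hθc, hθf, -, hsub⟩ := h
  exact ⟨a, b, d, θ, hθc, hθf, hsub⟩

end

section Main

variable {K : Type} [Field K] [NumberField K] {E : Type} [Field E] [NumberField E]
  {F : Type*} [Field F] [TopologicalSpace F] [IsTopologicalRing F] [T2Space F] [IsAlgClosed F] [CharZero F]

open scoped Classical in
/-- **The dichotomy.** -/
theorem mult_main (C : ℕ) (P Q : HeightOneSpectrum (𝓞 K) → Polynomial E)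
    (hPW : {v : HeightOneSpectrum (𝓞 K) | ¬ ∀ x ∈ (P v).aroots (AlgebraicClosure E),
      WeilC C (Ideal.absNorm v.asIdeal) x}.Finite)
    (hQW : {v : HeightOneSpectrum (𝓞 K) | ¬ ∀ x ∈ (Q v).aroots (AlgebraicClosure E),
      WeilC C (Ideal.absNorm v.asIdeal) x}.Finite)
    (ι : E →+* F) (N n : ℕ) (V : GK K →* Matrix (Fin N) (Fin N) F) (ρ : GK K →* Matrix (Fin n) (Fin n) F)
    (hV : Continuous V) (hρ : Continuous ρ) (hP : FrobPoly P ι V) (hQ : FrobPoly Q ι ρ) (hirr : Irr ρ) :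
    (Geo2 V ρ ↔ {v : HeightOneSpectrum (𝓞 K) | ¬ ∀ z ∈ (Q v).aroots (AlgebraicClosure E), Gen (P v) z}.Finite) ∧
    ∃ U : Subgroup (GK K), U.Normal ∧ IsOpen (U : Set (GK K)) ∧ (Rigid (dsum V ρ) ⊤ → U = ⊤) ∧
      (¬ Geo2 V ρ → DensZero {v : HeightOneSpectrum (𝓞 K) | (∃ σ ∈ U, IsFrob v σ) ∧
        n < 3 * Multiset.card (((Q v).aroots (AlgebraicClosure E)).filter (Gen (P v)))}) := by
  letI : MeasurableSpace (GK K) := borel _
  haveI : BorelSpace (GK K) := ⟨rfl⟩
  obtain ⟨U, hU1, hU2, hU3, hU4⟩ := mult_iff C P Q hPW hQW ι N n V ρ hV hρ hP hQ hirr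
  obtain ⟨j, hj⟩ := exists_ext ι
  have hset : {v : HeightOneSpectrum (𝓞 K) | (∃ σ ∈ U, IsFrob v σ) ∧
      n < 3 * Multiset.card (((Q v).aroots (AlgebraicClosure E)).filter (Gen (P v)))} =
      {v : HeightOneSpectrum (𝓞 K) | ∃ σ ∈ U, IsFrob v σ ∧
        n < 3 * Multiset.card (((Q v).aroots (AlgebraicClosure E)).filter (Gen (P v)))} := by
    ext v
    constructor
    · rintro ⟨⟨σ, hσ, hv⟩, h⟩
      exact ⟨σ, hσ, hv, h⟩
    · rintro ⟨σ, hσ, hv, h⟩
      exact ⟨⟨σ, hσ, hv⟩, h⟩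
  have hiff : Geo2 V ρ ↔ Geo V ρ := ⟨Geo2.geo, geo2_of_geo V ρ hirr⟩
  have hmain : ¬ Geo2 V ρ → DensZero {v : HeightOneSpectrum (𝓞 K) | (∃ σ ∈ U, IsFrob v σ) ∧
        n < 3 * Multiset.card (((Q v).aroots (AlgebraicClosure E)).filter (Gen (P v)))} := by
    intro hg
    rw [hset]
    by_contra hd
    exact hg (hiff.mpr (hU4.mpr hd))
  refine ⟨⟨fun hg => ?_, fun hf => ?_⟩, U, hU1, hU2, hU3, hmain⟩
  · obtain ⟨a, b, d, θ, -, hθ, hsub⟩ := hiff.mp hg
    obtain ⟨B, hB⟩ := good_of_subQuot (G := F) V ρ a b d θ hθ hsub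
    have hbc : ∀ {m : ℕ} (W : GK K →* Matrix (Fin m) (Fin m) F), bc F W = W := by
      intro m W
      ext x i j
      rfl
    simp only [hbc] at hB
    refine ((hP.union hQ).union hPW).subset ?_
    intro v hv
    by_contra hcon
    simp only [Set.mem_union, Set.mem_ofPred_eq, not_or, not_not] at hcon hv
    obtain ⟨⟨h1, h2⟩, h3⟩ := hcon
    apply hv
    intro z hz
    obtain ⟨σ, hσ⟩ := Pool.Agent.W401.Frob.exists_frob v
    refine gen_of_good ι j hj (P v) V σ (h1 σ hσ) (fun x hx => (h3 x hx).1) B z (hB σ (j z) ?_)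
    rw [← Polynomial.mem_roots (Matrix.charpoly_monic _).ne_zero, h2 σ hσ, roots_ext ι j hj, Multiset.mem_map]
    exact ⟨z, hz, rfl⟩
  · by_contra hg
    have hn : 0 < n := by
      obtain ⟨i⟩ := hirr.1
      exact Fin.pos i
    refine not_densZero U hU2 ((DensZero.union_finite (hmain hg) (hf.union hQ)).mono ?_)
    rintro v ⟨σ, hσ, hv⟩
    by_cases hgood : (∀ z ∈ (Q v).aroots (AlgebraicClosure E), Gen (P v) z) ∧
        (∀ σ : GK K, IsFrob v σ → (ρ σ).charpoly = (Q v).map ι)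
    · left
      refine ⟨⟨σ, hσ, hv⟩, ?_⟩
      rw [Multiset.filter_eq_self.mpr hgood.1, IsAlgClosed.card_aroots_eq_natDegree, ← Polynomial.natDegree_map ι,
        ← hgood.2 σ hv, Matrix.charpoly_natDegree_eq_dim, Fintype.card_fin]
      omega
    · right
      by_contra hcon
      apply hgood
      simp only [Set.mem_union, Set.mem_ofPred_eq, not_or, not_not] at hcon
      exact hcon

end Main

end Pool.Agent.H40RT
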